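import Pool.Agent.SplK.Defs

set_option autoImplicit false
set_option linter.all false

/-!
# Module Ic (inaccessible wellorders and inaccessible cardinals) difficulty 2

`Inac K` (Defs) says: K wellordered, uncountable, proper initial segments smaller than K, small subsets bounded,
`2 ^ #(Iio a) < #K`.

* `inac_card`: uncountable: `unc`. Strong limit: if `x < #K` then `x ≤ #(Iio a)` for some a: take S : Set K with `#S = x`
  (`Cardinal.le_mk_iff_exists_set`), bounded by a by `reg`, so `x ≤ #(Iio a)` and `2 ^ x ≤ 2 ^ #(Iio a) < #K`. Regular: use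
  the characterisation of `IsInaccessible` in Mathlib (`Cardinal.IsInaccessible`, Mathlib/SetTheory/Cardinal/Regular.lean:
  look at the structure fields). Suppose `#K = κ` is not regular; a cofinal subset of `κ.ord.ToType` of size < κ
  transports to an unbounded subset of K of size `< #K`: K has order type `κ.ord` (because all proper initial segments
  have size < κ: `Ordinal.type` of K is `≤ κ.ord` as every smaller ordinal has card < κ, and `≥` by `Cardinal.ord_le_type`),
  so K is order isomorphic to `κ.ord.ToType` and `κ.ord.cof` is the least size of an unbounded subset of K.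
* `inac_ord`: for `κ` inaccessible the type `κ.ord.ToType` satisfies Inac (`Cardinal.mk_Iio_ord_toType`, `Ordinal.cof`).
* `exists_seg`: a cardinal smaller than #K is at most the size of a proper initial segment.
-/

namespace Pool.Agent.SplK

open Cardinal

theorem exists_seg {K : Type} [LinearOrder K] (h : Inac K) {x : Cardinal.{0}} (hx : x < #K) :
    ∃ a : K, x ≤ #(Set.Iio a) := by
  obtain ⟨S, hS⟩ := Cardinal.le_mk_iff_exists_set.mp hx.le
  obtain ⟨b, hb⟩ := h.reg S (by rw [hS]; exact hx)
  refine ⟨b, ?_⟩
  rw [← hS]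
  exact Cardinal.mk_le_mk_of_subset (fun a ha => hb a ha)

theorem inac_card {K : Type} [LinearOrder K] (h : Inac K) : (#K).IsInaccessible := by
  haveI := h.wf
  have hord : (#K).ord = Ordinal.type (α := K) (· < ·) := by
    refine le_antisymm (Cardinal.ord_le_type _) ?_
    refine le_of_forall_lt (fun o ho => ?_)
    obtain ⟨a, rfl⟩ := Ordinal.typein_surj (α := K) (· < ·) ho
    rw [Cardinal.lt_ord, Ordinal.card_typein]
    exact h.seg a
  refine ⟨h.unc, ?_, ?_⟩
  · rw [hord, Ordinal.cof_type, Order.le_cof_iff]
    intro s hs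
    by_contra hlt
    obtain ⟨b, hb⟩ := h.reg s (not_le.mp hlt)
    obtain ⟨a, ha, hba⟩ := hs b
    exact absurd (hb a ha) (not_lt.mpr hba)
  · intro x hx
    obtain ⟨a, ha⟩ := exists_seg h hx
    exact lt_of_le_of_lt (Cardinal.power_le_power_left two_ne_zero ha) (h.lim a)

theorem inac_ord {κ : Cardinal.{0}} (hκ : κ.IsInaccessible) : Inac κ.ord.ToType := by
  have hseg : ∀ a : κ.ord.ToType, #(Set.Iio a) < κ := fun a => by
    have := Cardinal.card_typein_toType_lt κ a
    rwa [Ordinal.card_typein] at this
  refine ⟨inferInstance, ?_, ?_, ?_, ?_⟩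
  · rw [Cardinal.mk_ord_toType]; exact hκ.aleph0_lt
  · intro a
    rw [Cardinal.mk_ord_toType]
    exact hseg a
  · intro S hS
    rw [Cardinal.mk_ord_toType] at hS
    by_contra hcon
    push Not at hcon
    have hcof : IsCofinal S := fun b => by
      obtain ⟨a, ha, hb⟩ := hcon b
      exact ⟨a, ha, hb⟩
    have h1 := Order.cof_le hcof
    rw [Ordinal.cof_toType] at h1
    exact absurd (hκ.le_cof_ord.trans h1) (not_le.mpr hS)
  · intro a
    rw [Cardinal.mk_ord_toType]
    exact hκ.isStrongPrelimit (hseg a)

/-- In an inaccessible wellorder fewer than #K sets of size less than #K have a union of size less than #K. -/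
theorem inac_union {K : Type} [LinearOrder K] (h : Inac K) {ι α : Type} (hι : #ι < #K) (S : ι → Set α)
    (hS : ∀ i, #(S i) < #K) : #(⋃ i, S i : Set α) < #K := by
  exact (Cardinal.card_iUnion_lt_iff_forall_of_isRegular (inac_card h).isRegular hι).mpr hS

/-- Inaccessible cardinals are closed under powers. -/
theorem inac_pow {θ x y : Cardinal.{0}} (hθ : θ.IsInaccessible) (hx : x < θ) (hy : y < θ) : x ^ y < θ := by
  have h1 : x ^ y ≤ 2 ^ (x * y) := by
    rw [Cardinal.power_mul]
    exact Cardinal.power_le_power_right (Cardinal.cantor x).le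
  exact lt_of_le_of_lt h1 (hθ.isStrongPrelimit (Cardinal.mul_lt_of_lt hθ.aleph0_lt.le hx hy))

/-- A product of fewer than θ factors smaller than θ is smaller than θ. -/
theorem inac_prod {θ : Cardinal.{0}} (hθ : θ.IsInaccessible) {ι : Type} (hι : #ι < θ) (f : ι → Cardinal.{0})
    (hf : ∀ i, f i < θ) : Cardinal.prod f < θ := by
  have h1 : iSup f < θ := Cardinal.iSup_lt_of_isRegular hθ.isRegular hι hf
  have h2 : Cardinal.prod f ≤ iSup f ^ #ι := by
    rw [← Cardinal.prod_const']
    exact Cardinal.prod_le_prod _ _ (fun i => le_ciSup (Cardinal.bddAbove_range f) i)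
  exact lt_of_le_of_lt h2 (inac_pow hθ h1 hι)

/-- A supremum of the iterated successors. -/
theorem inac_pl_bdd {θ x : Cardinal.{0}} (hθ : θ.IsInaccessible) (hx : x < θ) : ∃ y < θ, ∀ n, pl x n ≤ y := by
  have h0 : ∀ n, pl x n < θ := by
    intro n
    induction n with
    | zero => exact hx
    | succ n ih =>
      rw [pl_succ]
      exact lt_of_le_of_lt (Order.succ_le_of_lt (Cardinal.cantor _)) (hθ.isStrongPrelimit ih)
  refine ⟨⨆ n : ℕ, pl x n, ?_, fun n => le_ciSup (Cardinal.bddAbove_range (fun n : ℕ => pl x n)) n⟩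
  refine Cardinal.iSup_lt_of_isRegular hθ.isRegular ?_ h0
  rw [Cardinal.mk_nat]
  exact hθ.aleph0_lt

/-- An initial segment of an inaccessible wellorder at a point with `Inac`: cardinality comparison. -/
theorem iio_lt_iio {K : Type} [LinearOrder K] {a c : K} (h : Inac (Set.Iio c)) (hac : a < c) :
    #(Set.Iio a) < #(Set.Iio c) := by
  refine lt_of_le_of_lt ?_ (h.seg ⟨a, hac⟩)
  exact Cardinal.mk_le_of_injective
    (f := fun x : Set.Iio a => (⟨⟨x.1, lt_trans x.2 hac⟩, x.2⟩ : Set.Iio (⟨a, hac⟩ : Set.Iio c)))
    (fun x y hxy => by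
      have h1 := congrArg (fun z => z.1.1) hxy
      exact Subtype.ext h1)

end Pool.Agent.SplK
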