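import Pool.Agent.SplK.Defs

set_option autoImplicit false
set_option linter.all false

/-!
# Module Ar (cardinal arithmetic) difficulty 1

`pl κ n` is the n-th iterate of `Order.succ` at `κ` (see Defs: `pl_zero`, `pl_succ`). Everything is a short induction.
* `pl_lt`: `Order.succ x ≤ 2 ^ x` since `x < 2 ^ x` (`Cardinal.cantor`).
* `eq_pl`: induction on n; if `c ≤ pl κ (n+1)` and not `c ≤ pl κ n` then `c = pl κ (n+1)` (`Order.lt_iff_le_pred`, `Order.succ_le_iff`).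
-/

namespace Pool.Agent.SplK

open Cardinal

theorem le_pl (κ : Cardinal.{0}) (n : ℕ) : κ ≤ pl κ n := by
  induction n with
  | zero => exact le_rfl
  | succ n ih => rw [pl_succ]; exact ih.trans (Order.le_succ _)

theorem pl_le_pl {κ μ : Cardinal.{0}} (h : κ ≤ μ) (n : ℕ) : pl κ n ≤ pl μ n := by
  induction n with
  | zero => exact h
  | succ n ih => rw [pl_succ, pl_succ]; exact Order.succ_le_succ ih

theorem pl_mono {κ : Cardinal.{0}} {m n : ℕ} (h : m ≤ n) : pl κ m ≤ pl κ n := by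
  refine monotone_nat_of_le_succ (f := fun n => pl κ n) (fun n => ?_) h
  change pl κ n ≤ pl κ (n + 1)
  rw [pl_succ]
  exact Order.le_succ _

theorem pl_pl (κ : Cardinal.{0}) (m n : ℕ) : pl (pl κ m) n = pl κ (m + n) := by
  induction n with
  | zero => rfl
  | succ n ih => rw [pl_succ, ih, ← pl_succ, Nat.add_assoc]

theorem pl_lt {κ c : Cardinal.{0}} (h : κ < c) (hc : ∀ x < c, 2 ^ x < c) (n : ℕ) : pl κ n < c := by
  induction n with
  | zero => exact h
  | succ n ih =>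
    rw [pl_succ]
    exact lt_of_le_of_lt (Order.succ_le_of_lt (Cardinal.cantor _)) (hc _ ih)

theorem two_pow_pl (hg : GCH0) {κ : Cardinal.{0}} (hκ : ℵ₀ ≤ κ) (n : ℕ) : 2 ^ pl κ n = pl κ (n + 1) := by
  rw [pl_succ]
  exact hg _ (hκ.trans (le_pl κ n))

theorem eq_pl {κ c : Cardinal.{0}} {n : ℕ} (h1 : κ ≤ c) (h2 : c ≤ pl κ n) : ∃ m ≤ n, c = pl κ m := by
  induction n with
  | zero => exact ⟨0, le_rfl, le_antisymm h2 h1⟩
  | succ n ih =>
    by_cases h3 : c ≤ pl κ n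
    · obtain ⟨m, hm, h4⟩ := ih h3
      exact ⟨m, hm.trans (Nat.le_succ n), h4⟩
    · refine ⟨n + 1, le_rfl, le_antisymm h2 ?_⟩
      rw [pl_succ]
      exact Order.succ_le_of_lt (not_le.mp h3)

/-- If `ℵ₀ ≤ κ` then sums and products of cardinals at most `pl κ n` are at most `pl κ n`. -/
theorem mul_le_pl {κ c d : Cardinal.{0}} (hκ : ℵ₀ ≤ κ) {n : ℕ} (hc : c ≤ pl κ n) (hd : d ≤ pl κ n) :
    c * d ≤ pl κ n := by
  have h1 : ℵ₀ ≤ pl κ n := hκ.trans (le_pl κ n)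
  calc c * d ≤ pl κ n * pl κ n := mul_le_mul' hc hd
    _ = pl κ n := Cardinal.mul_eq_self h1

/-- Powers under GCH. -/
theorem pow_le_pl (hg : GCH0) {κ c d : Cardinal.{0}} (hκ : ℵ₀ ≤ κ) {n : ℕ} (hc : c ≤ pl κ (n + 1)) (hd : d ≤ pl κ n) :
    c ^ d ≤ pl κ (n + 1) := by
  have h1 : ℵ₀ ≤ pl κ n := hκ.trans (le_pl κ n)
  have h0 : pl κ (n + 1) ≠ 0 := ((Cardinal.aleph0_pos).trans_le (hκ.trans (le_pl κ (n + 1)))).ne'
  calc c ^ d ≤ pl κ (n + 1) ^ d := Cardinal.power_le_power_right hc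
    _ ≤ pl κ (n + 1) ^ pl κ n := Cardinal.power_le_power_left h0 hd
    _ = pl κ (n + 1) := by
      rw [← two_pow_pl hg hκ n, ← Cardinal.power_mul, Cardinal.mul_eq_self h1]

end Pool.Agent.SplK
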