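import Mathlib

set_option autoImplicit false
set_option linter.all false

/-!
# Module Ch (chains of given length) difficulty 2

Wellorder J (`exists_wellFoundedLT` / `WellOrderingRel`). Construct by wellfounded recursion on j : J elements n j of A such that n j ≤ m0,
n j ≤ n i for i < j, and Pr j (n j): given n on Iio j (with these properties) the family (Option (Iio j)) → A: none ↦ m0, i ↦ n i is a chain, of size ≤ #J + 1; so it has a
lower bound m by hcl (hypothesis for index types of size ≤ μ; `#(Option (Iio j)) ≤ μ` since μ is infinite and #J ≤ μ) and the step gives m' ≤ m with Pr j m'. At the end the family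
(Option J) → A is a chain; take a lower bound m; Pr j m by hPr. (For the recursion: define n j := choice of a good element if one exists, else m0; prove by induction that
it is good.)
-/

namespace Pool.Agent.SplK

open Cardinal

theorem chain_lemma {A : Type} (le : A → A → Prop) (hr : ∀ m, le m m) (ht : ∀ m m' m'', le m m' → le m' m'' → le m m'')
    (μ : Cardinal.{0}) (hμ : ℵ₀ ≤ μ)
    (hcl : ∀ (ι : Type) (f : ι → A), #ι ≤ μ → (∀ i j, le (f i) (f j) ∨ le (f j) (f i)) → ∃ m, ∀ i, le m (f i))
    (J : Type) (hJ : #J ≤ μ) (Pr : J → A → Prop) (hPr : ∀ j m m', Pr j m → le m' m → Pr j m')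
    (hstep : ∀ j m, ∃ m', le m' m ∧ Pr j m') (m0 : A) : ∃ m, le m m0 ∧ ∀ j, Pr j m := by
  classical
  obtain ⟨lo, wf⟩ := exists_wellOrder J
  have hopt : ∀ I : Type, #I ≤ μ → #(Option I) ≤ μ := by
    intro I hI
    rw [Cardinal.mk_option]
    exact Cardinal.add_le_of_le hμ hI (Cardinal.one_le_aleph0.trans hμ)
  let G : ∀ j : J, (∀ i : J, i < j → A) → A := fun j r =>
    if h : ∃ m', (∀ i (hi : i < j), le m' (r i hi)) ∧ le m' m0 ∧ Pr j m' then h.choose else m0
  let n : J → A := wf.wf.fix G
  have hn : ∀ j, n j = G j (fun i _ => n i) := fun j => WellFounded.fix_eq _ _ _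
  have key : ∀ j, (∀ i, i < j → le (n j) (n i)) ∧ le (n j) m0 ∧ Pr j (n j) := by
    intro j
    induction j using WellFoundedLT.induction with
    | ind j ih =>
      have hex : ∃ m', (∀ i (hi : i < j), le m' (n i)) ∧ le m' m0 ∧ Pr j m' := by
        obtain ⟨m, hm⟩ := hcl (Option {i // i < j}) (fun o => o.elim m0 (fun i => n i))
          (hopt _ ((Cardinal.mk_subtype_le _).trans hJ)) (by
            rintro (_ | ⟨a, ha⟩) (_ | ⟨b, hb⟩)
            · exact Or.inl (hr _)
            · exact Or.inr (ih b hb).2.1
            · exact Or.inl (ih a ha).2.1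
            · rcases lt_trichotomy a b with h | h | h
              · exact Or.inr ((ih b hb).1 a h)
              · subst h
                exact Or.inl (hr _)
              · exact Or.inl ((ih a ha).1 b h))
        obtain ⟨m', h1, h2⟩ := hstep j m
        exact ⟨m', fun i hi => ht _ _ _ h1 (hm (some ⟨i, hi⟩)), ht _ _ _ h1 (hm none), h2⟩
      rw [hn j]
      simp only [G]
      rw [dif_pos hex]
      exact hex.choose_spec
  obtain ⟨m, hm⟩ := hcl (Option J) (fun o => o.elim m0 n) (hopt _ hJ) (by
    rintro (_ | a) (_ | b)
    · exact Or.inl (hr _)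
    · exact Or.inr (key b).2.1
    · exact Or.inl (key a).2.1
    · rcases lt_trichotomy a b with h | h | h
      · exact Or.inr ((key b).1 a h)
      · subst h
        exact Or.inl (hr _)
      · exact Or.inl ((key a).1 b h))
  exact ⟨m, hm none, fun j => hPr j (n j) m (key j).2.2 (hm (some j))⟩

end Pool.Agent.SplK
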