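import Pool.Agent.SplK.Defs

set_option autoImplicit false
set_option linter.all false

/-!
# Sets of conditions (same definitions as in Pool.Agent.H55.Lav.QDefs)
-/

namespace Pool.Agent.SplK

variable {Q : Type} [Preorder Q]

/-- `E` is below a member of `S`. -/
def BelQ (S : Set Q) (E : Q) : Prop := ∃ C ∈ S, E ≤ C
/-- `S` is predense below `E`. -/
def FoQ (S : Set Q) (E : Q) : Prop := ∀ E' ≤ E, ∃ E'' ≤ E', BelQ S E''
/-- `E` is incompatible with all members of `S`. -/
def IncQ (S : Set Q) (E : Q) : Prop := ∀ E' ≤ E, ¬ BelQ S E'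

end Pool.Agent.SplK
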