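import Mathlib

set_option autoImplicit false
set_option linter.all false

/-!
# Basic notions for MP_72b20c_lc (the splitting number at a regular cardinal can be singular)
-/

namespace Pool.Agent.SplK

open Cardinal

/-! ### Forcing with a preorder -/

section frc
variable {A : Type} [Preorder A]

/-- `p` forces `C`: the set `C` is dense below `p`. -/
def Frc (C : Set A) (p : A) : Prop := ∀ q ≤ p, ∃ r ≤ q, r ∈ C

/-- The conditions without extension in `C`. -/
def Neg (C : Set A) : Set A := {p | ∀ q ≤ p, q ∉ C}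

lemma Frc.mono {C : Set A} {p q : A} (h : Frc C p) (hq : q ≤ p) : Frc C q := fun r hr => h r (hr.trans hq)

lemma frc_or_neg (C : Set A) (p : A) : Frc C p ∨ ∃ q ≤ p, q ∈ Neg C := by
  by_cases h : Frc C p
  · exact Or.inl h
  · right
    unfold Frc at h
    push Not at h
    exact h

lemma Neg.mono {C : Set A} {p q : A} (h : p ∈ Neg C) (hq : q ≤ p) : q ∈ Neg C := fun r hr => h r (hr.trans hq)

lemma frc_neg_false {C : Set A} {p q : A} (h : Frc C p) (hq : q ≤ p) (hn : q ∈ Neg C) : False := by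
  obtain ⟨r, hr, h1⟩ := h q hq
  exact hn r hr h1

end frc

/-! ### Names of preorders -/

/-- A family of preorders on `T`, indexed by the conditions in `R`: a name of a forcing notion whose elements are
names of elements. -/
structure RPos (R : Type) [Preorder R] (T : Type) where
  /-- the order at a condition -/
  le : R → T → T → Prop
  /-- the greatest element -/
  top : T
  refl : ∀ r t, le r t t
  trans : ∀ r t₁ t₂ t₃, le r t₁ t₂ → le r t₂ t₃ → le r t₁ t₃
  le_top : ∀ r t, le r t top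
  mono : ∀ r r' t t', r' ≤ r → le r t t' → le r' t t'
  dense : ∀ r t t', (∀ r' ≤ r, ∃ r'' ≤ r', le r'' t t') → le r t t'
  mix : ∀ b : Set R, (∀ r ∈ b, ∀ r' ≤ r, r' ∈ b) → ∀ t t', ∃ t'', (∀ r ∈ b, le r t'' t ∧ le r t t'') ∧
    ∀ r, (∀ r' ≤ r, r' ∉ b) → le r t'' t' ∧ le r t' t''

/-- `r` forces that the family `f` is directed. -/
def RPos.Dir {R : Type} [Preorder R] {T : Type} (P : RPos R T) {ι : Type} (f : ι → T) (r : R) : Prop :=
  ∀ i j, ∀ r' ≤ r, ∃ r'' ≤ r', ∃ k, P.le r'' (f k) (f i) ∧ P.le r'' (f k) (f j)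

/-- Forced to be `κ`-directed closed. -/
def RPos.Closed {R : Type} [Preorder R] {T : Type} (P : RPos R T) (κ : Cardinal.{0}) : Prop :=
  ∀ (ι : Type) (f : ι → T) (r : R), #ι < κ → P.Dir f r → ∃ t, ∀ i, P.le r t (f i)

/-- The two-step iteration. -/
structure Star {R : Type} [Preorder R] {T : Type} (P : RPos R T) where
  /-- the first coordinate -/
  r : R
  /-- the second coordinate -/
  t : T

instance {R : Type} [Preorder R] {T : Type} (P : RPos R T) : Preorder (Star P) where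
  le x y := x.r ≤ y.r ∧ P.le x.r x.t y.t
  le_refl x := ⟨le_rfl, P.refl _ _⟩
  le_trans x y z h1 h2 := ⟨h1.1.trans h2.1, P.trans _ _ _ _ h1.2 (P.mono _ _ _ _ h1.1 h2.2)⟩

lemma star_le {R : Type} [Preorder R] {T : Type} {P : RPos R T} {x y : Star P} :
    x ≤ y ↔ x.r ≤ y.r ∧ P.le x.r x.t y.t := Iff.rfl

instance {R : Type} [Preorder R] [OrderTop R] {T : Type} (P : RPos R T) : OrderTop (Star P) where
  top := ⟨⊤, P.top⟩
  le_top x := ⟨le_top, P.le_top _ _⟩

/-! ### Measures in the forcing extension -/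

/-- The function `μ` is a name of a nonprincipal `#K`-complete ultrafilter on `K`; a name of a subset of `K` is a
function from `K` to sets of conditions, and `μ X` is the set of conditions which force that it belongs to the
ultrafilter. -/
structure BMeas (K A : Type) [LinearOrder K] [Preorder A] (μ : (K → Set A) → Set A) : Prop where
  down : ∀ X p q, p ∈ μ X → q ≤ p → q ∈ μ X
  dec : ∀ X p, p ∉ μ X → ∃ q ≤ p, q ∈ μ (fun a => Neg (X a))
  cons : ∀ X p, p ∈ μ X → p ∉ μ (fun a => Neg (X a))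
  mono : ∀ X Y p, p ∈ μ X → (∀ a, ∀ q ≤ p, Frc (X a) q → Frc (Y a) q) → p ∈ μ Y
  complete : ∀ (ι : Type) (X : ι → K → Set A) p, #ι < #K → (∀ i, p ∈ μ (X i)) →
    p ∈ μ (fun a => {q | ∀ i, Frc (X i a) q})
  tail : ∀ a₀ p, p ∈ μ (fun a => {_q : A | a₀ < a})

/-! ### Cardinals -/

/-- The `n`-th successor cardinal. -/
noncomputable def pl (κ : Cardinal.{0}) (n : ℕ) : Cardinal.{0} := Order.succ^[n] κ

@[simp] lemma pl_zero (κ : Cardinal.{0}) : pl κ 0 = κ := rfl
lemma pl_succ (κ : Cardinal.{0}) (n : ℕ) : pl κ (n + 1) = Order.succ (pl κ n) := by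
  rw [pl, pl, Function.iterate_succ_apply']

/-- The generalized continuum hypothesis (for small types). -/
def GCH0 : Prop := ∀ c : Cardinal.{0}, ℵ₀ ≤ c → 2 ^ c = Order.succ c

/-- `K` is a wellordered set whose order type is an inaccessible cardinal. -/
structure Inac (K : Type) [LinearOrder K] : Prop where
  wf : WellFoundedLT K
  unc : ℵ₀ < #K
  seg : ∀ a : K, #(Set.Iio a) < #K
  reg : ∀ S : Set K, #S < #K → ∃ b, ∀ a ∈ S, a < b
  lim : ∀ a : K, 2 ^ #(Set.Iio a) < #K

/-- `W` is a normal fine `κ`-complete ultrafilter on the set of the subsets of `Θ` of cardinality less than `κ`. -/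
structure NFU (κ : Cardinal.{0}) (Θ : Type) (W : Ultrafilter (Set Θ)) : Prop where
  small : ∀ᶠ x : Set Θ in (W : Filter (Set Θ)), #x < κ
  fine : ∀ i : Θ, ∀ᶠ x : Set Θ in (W : Filter (Set Θ)), i ∈ x
  complete : ∀ (ι : Type) (A : ι → Set (Set Θ)), #ι < κ → (∀ i, A i ∈ W) → (⋂ i, A i) ∈ W
  normal : ∀ f : Set Θ → Θ, (∀ᶠ x : Set Θ in (W : Filter (Set Θ)), f x ∈ x) →
    ∃ i, ∀ᶠ x : Set Θ in (W : Filter (Set Θ)), f x = i

/-- `κ` is `κ⁺ⁿ`-supercompact for all `n`. -/
def SC (κ : Cardinal.{0}) : Prop := ∀ (n : ℕ) (Θ : Type), #Θ = pl κ n → ∃ W : Ultrafilter (Set Θ), NFU κ Θ W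

end Pool.Agent.SplK
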