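import Pool.Agent.SplK.Kd
import Pool.Agent.SplK.Ar

set_option autoImplicit false
set_option linter.all false

/-!
# Module Cw (sizes of the traces) difficulty 3

a_x := kx k x. All statements for W-almost all x.
* `kx_card`: induction on n (for all Y, g).
  n = 0: `#Y ≤ #K`: take an injection e : Y → K. For each y eventually (g y ∈ x ↔ e y < a_x) — both sides eventually true (fine, kx_large). By `nfu_diag` (for g): eventually for all y with
  g y ∈ x: e y < a_x. So {y | g y ∈ x} injects into Iio a_x.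
  n + 1: `#Y ≤ pl #K (n+1) = succ (pl #K n)`: take a wellorder on Y all of whose proper initial segments have size ≤ pl #K n (transport from `(pl #K (n+1)).ord.ToType`:
  Y injects into this type Z, and `#(Iio z) < succ (pl #K n)` for z : Z (`Cardinal.mk_Iio_ord_toType`)). For y : Y apply the induction hypothesis to the type {y' // y' < y} and g:
  eventually `#{y' < y | g y' ∈ x} ≤ pl #(Iio a_x) n =: λ_x`. By `nfu_diag` eventually for all y with g y ∈ x. So the wellordered set {y | g y ∈ x} has all proper initial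
  segments of size ≤ λ_x, hence size ≤ succ λ_x = pl #(Iio a_x) (n+1). (A linear wellorder Z' with `#Z' > succ λ`, i.e. with ordinal type > (succ λ).ord, has an element with
  succ λ predecessors.)
* `kx_big`: #Θ = pl #K n: `kx_card` with Y = Θ, g = id: `#x ≤ pl #(Iio a_x) n`. If c ≥ sx a_x with Inac (Iio c) then a_x < c, `#(Iio a_x) < #(Iio c)` (`iio_lt_iio`), and
  `pl #(Iio a_x) n < #(Iio c)` (`pl_lt`, `inac_card` gives the strong limit property of #(Iio c)). Next `#(Iio a_x) ≤ #x` (injection k, kx_spec), `ℵ₀ ≤ #(Iio a_x)` (kx_inac, unc) and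
  `#(Cd a_x) ≤ #(Iio a_x)` (`card_Cd_le`).
-/

namespace Pool.Agent.SplK

open Cardinal

variable {K : Type} [LinearOrder K] [Stp K] {Θ : Type} {W : Ultrafilter (Set Θ)}

/-- A wellorder whose proper initial segments have size at most `c` has size at most `succ c`. -/
theorem cw_wo {S : Type} [LinearOrder S] [WellFoundedLT S] {c : Cardinal.{0}} (h : ∀ s : S, #(Set.Iio s) ≤ c) :
    #S ≤ Order.succ c := by
  by_contra hcon
  rw [not_le] at hcon
  have h1 : (Order.succ c).ord < Ordinal.type ((· < ·) : S → S → Prop) :=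
    (Cardinal.ord_lt_ord.2 hcon).trans_le (Cardinal.ord_le_type _)
  obtain ⟨a, ha⟩ := Ordinal.typein_surj _ h1
  have h2 := Ordinal.card_typein (r := ((· < ·) : S → S → Prop)) a
  rw [ha, Cardinal.card_ord] at h2
  have h3 : #(Set.Iio a) = Order.succ c := h2.symm
  have h4 := h a
  rw [h3] at h4
  exact absurd (Order.lt_succ c) (not_lt.2 h4)

/-- The same with an injection into a wellorder. -/
theorem cw_inj {A Z : Type} [LinearOrder Z] [WellFoundedLT Z] (e : A → Z) (he : Function.Injective e)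
    {c : Cardinal.{0}} (h : ∀ a : A, #{b : A | e b < e a} ≤ c) : #A ≤ Order.succ c := by
  have h1 : #A = #(Set.range e) := (Cardinal.mk_range_eq e he).symm
  rw [h1]
  apply cw_wo
  rintro ⟨_, a, rfl⟩
  refine le_trans ?_ (h a)
  refine Cardinal.mk_le_of_surjective (f := fun b : {b : A | e b < e a} =>
    (⟨⟨e b.1, b.1, rfl⟩, b.2⟩ : Set.Iio (⟨e a, a, rfl⟩ : Set.range e))) ?_
  rintro ⟨⟨_, b, rfl⟩, hb⟩
  exact ⟨⟨b, hb⟩, rfl⟩

theorem kx_card (hW : NFU #K Θ W) (k : K → Θ) (hk : Function.Injective k) (n : ℕ) {Y : Type} (g : Y → Θ)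
    (hg : Function.Injective g) (hY : #Y ≤ pl #K n) :
    ∀ᶠ x : Set Θ in (W : Filter (Set Θ)), #{y | g y ∈ x} ≤ pl #(Set.Iio (kx k x)) n := by
  induction n generalizing Y with
  | zero =>
    obtain ⟨e⟩ := hY
    have h1 := nfu_diag hW g hg (fun y x => e y < kx k x) (fun y => kx_large hW k hk (e y))
    filter_upwards [h1] with x hx
    refine Cardinal.mk_le_of_injective (f := fun y : {y | g y ∈ x} => (⟨e y.1, hx y.1 y.2⟩ : Set.Iio (kx k x))) ?_
    intro y y' hyy
    have := congrArg Subtype.val hyy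
    exact Subtype.ext (e.injective this)
  | succ n ih =>
    rw [pl_succ] at hY
    have hZ : #Y ≤ #(Order.succ (pl #K n)).ord.ToType := by
      rw [Cardinal.mk_ord_toType]
      exact hY
    obtain ⟨e⟩ := hZ
    have hseg : ∀ y : Y, #{y' : Y // e y' < e y} ≤ pl #K n := by
      intro y
      have h1 : #{y' : Y // e y' < e y} ≤ #(Set.Iio (e y)) :=
        Cardinal.mk_le_of_injective (f := fun y' : {y' : Y // e y' < e y} => (⟨e y'.1, y'.2⟩ : Set.Iio (e y)))
          (fun a b hab => Subtype.ext (e.injective (congrArg Subtype.val hab)))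
      have h2 : #(Set.Iio (e y)) < Order.succ (pl #K n) := Cardinal.mk_Iio_ord_toType _
      exact Order.lt_succ_iff.1 (h1.trans_lt h2)
    have h1 := nfu_diag hW g hg (fun y x => #{y' : {y' : Y // e y' < e y} | g y'.1 ∈ x} ≤ pl #(Set.Iio (kx k x)) n)
      (fun y => ih (fun y' : {y' : Y // e y' < e y} => g y'.1)
        (fun a b hab => Subtype.ext (hg hab)) (hseg y))
    filter_upwards [h1] with x hx
    rw [pl_succ]
    refine cw_inj (fun y : {y | g y ∈ x} => e y.1) (fun a b hab => Subtype.ext (e.injective hab)) ?_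
    rintro ⟨y, hy⟩
    refine le_trans ?_ (hx y hy)
    refine Cardinal.mk_le_of_injective (f := fun b : {b : {y | g y ∈ x} | e b.1 < e y} =>
      (⟨⟨b.1.1, b.2⟩, b.1.2⟩ : {y' : {y' : Y // e y' < e y} | g y'.1 ∈ x})) ?_
    intro a b hab
    have := congrArg (fun z => z.1.1) hab
    exact Subtype.ext (Subtype.ext this)

theorem kx_big (hW : NFU #K Θ W) (k : K → Θ) (hk : Function.Injective k) {n : ℕ} (hΘ : #Θ = pl #K n) :
    ∀ᶠ x : Set Θ in (W : Filter (Set Θ)), Big (sx (kx k x)) #x ∧ ℵ₀ ≤ #x ∧ #(Cd (kx k x)) ≤ #x := by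
  have h1 := kx_card hW k hk n (g := id) Function.injective_id hΘ.le
  filter_upwards [h1, kx_spec hW k hk, kx_inac hW k hk] with x hx hspec hin
  have hx' : #x ≤ pl #(Set.Iio (kx k x)) n := hx
  have hle : #(Set.Iio (kx k x)) ≤ #x :=
    Cardinal.mk_le_of_injective (f := fun b : Set.Iio (kx k x) => (⟨k b.1, (hspec b.1).2 b.2⟩ : x))
      (fun a b hab => Subtype.ext (hk (congrArg Subtype.val hab)))
  refine ⟨?_, hin.unc.le.trans hle, (card_Cd_le _ hin).trans hle⟩
  intro c hc hci
  have hac : kx k x < c := sx_le_iff.1 hc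
  exact hx'.trans_lt (pl_lt (iio_lt_iio hci hac) (fun y hy => (inac_card hci).isStrongPrelimit hy) n)

end Pool.Agent.SplK
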