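import Pool.Agent.SplK.Kx
import Pool.Agent.SplK.Ic

set_option autoImplicit false
set_option linter.all false

/-!
# Module Ik (almost all critical points are inaccessible) difficulty 3

Claim: for W-almost all x, `Inac (Iio (kx k x))`. Write a_x := kx k x. `wf` is clear.
(1) unc: take b : K with `ℵ₀ < #(Iio b)` (exists: `exists_seg` for `x = ℵ₁ = succ ℵ₀ ≤ 2^ℵ₀ < #K`: strong limit, `inac_card`), eventually b < a_x.
(2) reg': eventually for all b < a_x and all functions f : Iio b → K with values < a_x, there is d < a_x with f c < d for all c < b.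
  Otherwise (ultrafilter) eventually there are b_x < a_x, f_x : K → K (take total functions, only values at c < b_x count) with f_x c < a_x for c < b_x
  and unbounded in a_x. `kx_const`: b_x = b constant. For each c < b, `kx_const` applied to x ↦ f_x c: constant g c eventually. By
  `nfu_all` (index Iio b, of size < #K) eventually f_x c = g c for all c < b. By `Stp.inac.reg` the set {g c | c < b} has a strict bound d : K; eventually
  d < a_x: contradiction.
(3) From (2): reg of `Iio a_x`: S ⊆ Iio a_x with `#S < #(Iio a_x)`. Let b be least with `#S ≤ #(Iio b)`, b ≤ a_x. To see b < a_x we need: a_x is a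
  cardinal: (3') `#(Iio b) < #(Iio a_x)` for b < a_x (that is seg) and every cardinal < #(Iio a_x) is ≤ #(Iio b) for some b < a_x.
  seg: from the strong limit property (4): `#(Iio b) < 2 ^ #(Iio b) ≤ #(Iio d) ≤ #(Iio a_x)`.
  For a cardinal y < #(Iio a_x): the set S' = initial segment of order type `y.ord`: let b be the point of K with `typein b = y.ord`;
  as y < #(Iio a_x), y.ord < typein a_x so b < a_x and #(Iio b) = y. (Or: the set {b ≤ a_x | y ≤ #(Iio b)} is nonempty; let b be its least element;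
  all proper initial segments of Iio b have size < y, so Iio b has order type ≤ y.ord and `#(Iio b) ≤ y`; so #(Iio b) = y < #(Iio a_x), b ≠ a_x.)
  Then a surjection (or injection S → Iio b) and (2) bound S.
(4) lim: `kx_diag`: for each b : K take d = d(b) : K with `2 ^ #(Iio b) ≤ #(Iio d)` (`exists_seg`, strong limit of #K); for almost all x, for all b < a_x: d(b) < a_x,
  so `2 ^ #(Iio b) ≤ #(Iio d) ` and then `< #(Iio a_x)`: apply again: `#(Iio d) < 2 ^ #(Iio d) ≤ #(Iio (d (d b))) ≤ #(Iio a_x)`.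
(The fields of Inac are about elements of the subtype `Iio a_x`; `Iio` of an element of the subtype is in bijection with `Iio` in K.)
-/

namespace Pool.Agent.SplK

open Cardinal

variable {K : Type} [LinearOrder K] [Stp K] {Θ : Type} {W : Ultrafilter (Set Θ)}

theorem ik_le {X : Type} [LinearOrder X] [WellFoundedLT X] {y : Cardinal.{0}}
    (h : ∀ a : X, #(Set.Iio a) < y) : #X ≤ y := by
  have h1 : Ordinal.type ((· < ·) : X → X → Prop) ≤ y.ord := by
    by_contra h2
    rw [not_le] at h2
    obtain ⟨a, ha⟩ := Ordinal.typein_surj (· < ·) h2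
    have h3 : #(Set.Iio a) = y := by
      have h4 := Ordinal.card_typein (r := ((· < ·) : X → X → Prop)) a
      rw [ha, card_ord] at h4
      exact h4.symm
    exact (h a).ne h3
  have h2 := Ordinal.card_le_card h1
  rwa [Ordinal.card_type, card_ord] at h2

theorem ik_iio {X : Type} [LinearOrder X] {p : X} (a : Set.Iio p) : #(Set.Iio a) = #(Set.Iio a.1) := by
  refine Cardinal.mk_congr ⟨fun z => ⟨z.1.1, z.2⟩, fun z => ⟨⟨z.1, lt_trans z.2 a.2⟩, z.2⟩, fun z => rfl,
    fun z => rfl⟩

theorem ik_reg (hW : NFU #K Θ W) (k : K → Θ) (hk : Function.Injective k) :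
    ∀ᶠ x : Set Θ in (W : Filter (Set Θ)), ∀ b < kx k x, ∀ g : K → K, (∀ c < b, g c < kx k x) →
      ∃ d < kx k x, ∀ c < b, g c < d := by
  classical
  by_contra hcon
  rw [← Ultrafilter.eventually_not] at hcon
  have h1 : ∀ x : Set Θ, ∃ (b : K) (g : K → K), (¬ ∀ b < kx k x, ∀ g : K → K, (∀ c < b, g c < kx k x) →
      ∃ d < kx k x, ∀ c < b, g c < d) → b < kx k x ∧ (∀ c < b, g c < kx k x) ∧
        ∀ d < kx k x, ∃ c < b, ¬ g c < d := by
    intro x
    by_cases h : ∀ b < kx k x, ∀ g : K → K, (∀ c < b, g c < kx k x) → ∃ d < kx k x, ∀ c < b, g c < d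
    · exact ⟨Stp.bt, fun c => c, fun h' => (h' h).elim⟩
    · have h' := h
      push Not at h'
      obtain ⟨b, hb, g, hg, hd⟩ := h'
      refine ⟨b, g, fun _ => ⟨hb, hg, fun d hd' => ?_⟩⟩
      obtain ⟨c, hc, hcd⟩ := hd d hd'
      exact ⟨c, hc, not_lt.mpr hcd⟩
  choose b g hbg using h1
  have hb : ∀ᶠ x : Set Θ in (W : Filter (Set Θ)), b x < kx k x := by
    filter_upwards [hcon] with x hx
    exact (hbg x hx).1
  obtain ⟨b0, hb0⟩ := kx_const hW k hk b hb
  have hg : ∀ c : Set.Iio b0, ∃ a, ∀ᶠ x : Set Θ in (W : Filter (Set Θ)), g x c.1 = a := by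
    intro c
    apply kx_const hW k hk (fun x => g x c.1)
    filter_upwards [hcon, hb0] with x hx hbx
    exact (hbg x hx).2.1 c.1 (by rw [hbx]; exact c.2)
  choose G hG using hg
  have hN := Stp.inac (K := K)
  have hall := nfu_all hW (hN.seg b0) (fun c x => g x c.1 = G c) hG
  obtain ⟨d, hd⟩ := hN.reg (Set.range G) (mk_range_le.trans_lt (hN.seg b0))
  have hlarge := kx_large hW k hk d
  obtain ⟨x, h1, h2, h3, h4⟩ := (hcon.and (hb0.and (hall.and hlarge))).exists
  obtain ⟨c, hc, hcd⟩ := (hbg x h1).2.2 d h4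
  rw [h2] at hc
  apply hcd
  have h5 := h3 ⟨c, hc⟩
  dsimp only at h5
  rw [h5]
  exact hd _ ⟨⟨c, hc⟩, rfl⟩

theorem ik_lim (hW : NFU #K Θ W) (k : K → Θ) (hk : Function.Injective k) :
    ∀ᶠ x : Set Θ in (W : Filter (Set Θ)), ∀ b < kx k x, 2 ^ #(Set.Iio b) < #(Set.Iio (kx k x)) := by
  have hN := Stp.inac (K := K)
  have hI := inac_card hN
  have h1 : ∀ b : K, ∃ d : K, 2 ^ #(Set.Iio b) < #(Set.Iio d) := by
    intro b
    obtain ⟨d, hd⟩ := exists_seg hN (hI.isStrongPrelimit (hN.lim b))
    exact ⟨d, (cantor _).trans_le hd⟩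
  choose d hd using h1
  have h2 := kx_diag hW k hk (fun b x => d b < kx k x) (fun b => kx_large hW k hk (d b))
  filter_upwards [h2] with x hx b hb
  exact (hd b).trans_le (mk_le_mk_of_subset (Set.Iio_subset_Iio (hx b hb).le))

theorem kx_inac (hW : NFU #K Θ W) (k : K → Θ) (hk : Function.Injective k) :
    ∀ᶠ x : Set Θ in (W : Filter (Set Θ)), Inac (Set.Iio (kx k x)) := by
  classical
  have hN := Stp.inac (K := K)
  have hI := inac_card hN
  obtain ⟨b0, hb0⟩ := exists_seg hN (hI.isStrongPrelimit hN.unc)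
  filter_upwards [ik_reg hW k hk, ik_lim hW k hk, kx_large hW k hk b0] with x h1 h2 h3
  have hseg : ∀ b < kx k x, #(Set.Iio b) < #(Set.Iio (kx k x)) := fun b hb =>
    (cantor _).trans (h2 b hb)
  have hpos : (Stp.bt : K) < kx k x := (Stp.bt_le b0).trans_lt h3
  refine ⟨inferInstance, ?_, ?_, ?_, ?_⟩
  · refine lt_of_lt_of_le (cantor _) (hb0.trans (mk_le_mk_of_subset (Set.Iio_subset_Iio h3.le)))
  · intro a
    rw [ik_iio]
    exact hseg a.1 a.2
  · intro S hS
    -- the set is at most as large as a proper initial segment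
    obtain ⟨b, hb, hSb⟩ : ∃ b < kx k x, #S ≤ #(Set.Iio b) := by
      by_contra hcon
      push Not at hcon
      apply absurd hS (not_lt.mpr _)
      apply ik_le
      intro a
      rw [ik_iio]
      exact hcon a.1 a.2
    obtain ⟨e⟩ := Cardinal.le_def _ _ |>.mp hSb
    obtain ⟨d, hd, hd'⟩ := h1 b hb (fun c => if h : ∃ s : S, (e s).1 = c then (h.choose).1.1 else Stp.bt) (by
      intro c hc
      by_cases h : ∃ s : S, (e s).1 = c
      · simp only [dif_pos h]
        exact h.choose.1.2
      · simp only [dif_neg h]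
        exact hpos)
    refine ⟨⟨d, hd⟩, fun a ha => ?_⟩
    have h4 := hd' (e ⟨a, ha⟩).1 (e ⟨a, ha⟩).2
    have h5 : ∃ s : S, (e s).1 = (e ⟨a, ha⟩).1 := ⟨⟨a, ha⟩, rfl⟩
    rw [dif_pos h5] at h4
    have h6 : h5.choose = ⟨a, ha⟩ := e.injective (Subtype.ext h5.choose_spec)
    rw [h6] at h4
    exact h4
  · intro a
    rw [ik_iio]
    exact h2 a.1 a.2

end Pool.Agent.SplK
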