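import Pool.Agent.SplK.Ic
import Pool.Agent.SplK.RDefs2

set_option autoImplicit false
set_option linter.all false

/-!
# Module Kc (existence of the coding) difficulty 2

`stp_of_inac`: by `Inac K` the type K has a least element (K nonempty). It remains to find an equivalence
`K ≃ {S : Set (Fn K × K × K) // #S < #K}`, i.e. (`Cardinal.eq`) the right side has cardinality #K.
* `#(Fn K) = #K`: every f in Fn K is a function with support below some b and with values in `Option (Iio c × Iio c)` for
  some c (the set of values has size ≤ #(Iio b) < #K, hence is bounded in K by `reg`; bound both coordinates).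
  So Fn K injects into the sigma type over (b, c) : K × K of `Iio b → Option (Iio c × Iio c)`, each fibre has size < #K
  (`inac_pow`), so `#(Fn K) ≤ #K * #K * #K = #K`. And ≥: the functions with the only value (a, a) at a (use `sx`-free: the
  function `fun b => if b = bottom then some (a, a) else none`).
* a type X with `#X = #K`: the small subsets of X have cardinality #K: transport to X = K; a small S in K is bounded by some
  b (reg) so is a subset of Iio b: at most `Σ b, 2 ^ #(Iio b)` ≤ #K * #K = #K many. And at least the singletons.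
  Use X = Fn K × K × K, `#X = #K` since #K is infinite.
-/

namespace Pool.Agent.SplK

open Cardinal

theorem kc_union {X ι : Type} {κ : Cardinal.{0}} (hκ : ℵ₀ ≤ κ) (hι : #ι ≤ κ) (f : ι → Set X)
    (hf : ∀ i, #(f i) ≤ κ) (hcov : ∀ x, ∃ i, x ∈ f i) : #X ≤ κ := by
  have h1 : (⋃ i, f i) = Set.univ := Set.eq_univ_of_forall fun x => Set.mem_iUnion.2 (hcov x)
  rw [← mk_univ, ← h1]
  refine (mk_iUnion_le _).trans ?_
  calc #ι * ⨆ i, #(f i) ≤ κ * κ := mul_le_mul' hι (ciSup_le' hf)
    _ = κ := mul_eq_self hκ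

theorem kc_bdd {K : Type} [LinearOrder K] (h : Inac K) (f : Fn K) :
    ∃ c, ∀ a u v, f.1 a = some (u, v) → u < c ∧ v < c := by
  classical
  obtain ⟨b, hb⟩ := f.2
  have hd : Nonempty K := by
    rw [← mk_ne_zero_iff]
    exact (aleph0_pos.trans h.unc).ne'
  let d : K := Classical.choice hd
  let V : Set K := (fun a : Set.Iio b => ((f.1 a).getD (d, d)).1) '' Set.univ ∪
    (fun a : Set.Iio b => ((f.1 a).getD (d, d)).2) '' Set.univ
  have hV : #V < #K := by
    refine (mk_union_le _ _).trans_lt (add_lt_of_lt h.unc.le ?_ ?_)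
    · refine mk_image_le.trans_lt ?_
      rw [mk_univ]
      exact h.seg b
    · refine mk_image_le.trans_lt ?_
      rw [mk_univ]
      exact h.seg b
  obtain ⟨c, hc⟩ := h.reg V hV
  refine ⟨c, fun a u v hfa => ?_⟩
  have hab : a < b := hb a (by rw [hfa]; exact Option.some_ne_none _)
  constructor
  · refine hc u (Or.inl ⟨⟨a, hab⟩, trivial, ?_⟩)
    simp [hfa]
  · refine hc v (Or.inr ⟨⟨a, hab⟩, trivial, ?_⟩)
    simp [hfa]

theorem kc_fn {K : Type} [LinearOrder K] (h : Inac K) : #(Fn K) ≤ #K := by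
  have hκ : ℵ₀ ≤ #K := h.unc.le
  refine kc_union (ι := K × K) hκ (by rw [mk_prod, lift_id]; exact (mul_eq_self hκ).le)
    (fun p => {f : Fn K | (∀ a, f.1 a ≠ none → a < p.1) ∧
      ∀ a u v, f.1 a = some (u, v) → u < p.2 ∧ v < p.2}) ?_ ?_
  · rintro ⟨b, c⟩
    have h1 : #{f : Fn K | (∀ a, f.1 a ≠ none → a < b) ∧
        ∀ a u v, f.1 a = some (u, v) → u < c ∧ v < c} ≤
        #(Set (Set.Iio b × Set.Iio c × Set.Iio c)) := by
      refine mk_le_of_injective (f := fun f => {t : Set.Iio b × Set.Iio c × Set.Iio c |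
        f.1.1 t.1 = some (t.2.1.1, t.2.2.1)}) ?_
      rintro ⟨f, hf1, hf2⟩ ⟨g, hg1, hg2⟩ hfg
      apply Subtype.ext
      apply Subtype.ext
      funext a
      apply Option.ext
      rintro ⟨u, v⟩
      constructor
      · intro hfa
        have ha : a < b := hf1 a (by rw [hfa]; exact Option.some_ne_none _)
        obtain ⟨hu, hv⟩ := hf2 a u v hfa
        have hm : ((⟨a, ha⟩, ⟨u, hu⟩, ⟨v, hv⟩) : Set.Iio b × Set.Iio c × Set.Iio c) ∈
            {t : Set.Iio b × Set.Iio c × Set.Iio c | f.1 t.1 = some (t.2.1.1, t.2.2.1)} := hfa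
        have hm2 := (Set.ext_iff.1 hfg _).1 hm
        exact hm2
      · intro hga
        have ha : a < b := hg1 a (by rw [hga]; exact Option.some_ne_none _)
        obtain ⟨hu, hv⟩ := hg2 a u v hga
        have hm : ((⟨a, ha⟩, ⟨u, hu⟩, ⟨v, hv⟩) : Set.Iio b × Set.Iio c × Set.Iio c) ∈
            {t : Set.Iio b × Set.Iio c × Set.Iio c | g.1 t.1 = some (t.2.1.1, t.2.2.1)} := hga
        have hm2 := (Set.ext_iff.1 hfg _).2 hm
        exact hm2
    refine h1.trans (le_of_lt ?_)
    rw [mk_set]
    have h2 : #(Set.Iio b × Set.Iio c × Set.Iio c) < #K := by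
      simp only [mk_prod, lift_id]
      exact mul_lt_of_lt hκ (h.seg b) (mul_lt_of_lt hκ (h.seg c) (h.seg c))
    have h3 : (2 : Cardinal.{0}) < #K := (nat_lt_aleph0 2).trans h.unc
    exact inac_pow (inac_card h) h3 h2
  · intro f
    obtain ⟨b, hb⟩ := f.2
    obtain ⟨c, hc⟩ := kc_bdd h f
    exact ⟨(b, c), hb, hc⟩

theorem kc_sets {K : Type} [LinearOrder K] (h : Inac K) {X : Type} (hX : #X = #K) :
    #{S : Set X // #S < #K} = #K := by
  have hκ : ℵ₀ ≤ #K := h.unc.le
  obtain ⟨e⟩ := Cardinal.eq.1 hX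
  apply le_antisymm
  · refine kc_union (ι := K) hκ le_rfl
      (fun b => {S : {S : Set X // #S < #K} | ∀ x ∈ S.1, e x < b}) ?_ ?_
    · intro b
      have h1 : #{S : {S : Set X // #S < #K} | ∀ x ∈ S.1, e x < b} ≤ #(Set (Set.Iio b)) := by
        refine mk_le_of_injective (f := fun S => {t : Set.Iio b | e.symm t.1 ∈ S.1.1}) ?_
        rintro ⟨⟨S, hS⟩, hS1⟩ ⟨⟨S', hS'⟩, hS1'⟩ hfg
        apply Subtype.ext
        apply Subtype.ext
        ext x
        constructor
        · intro hx
          have hm : (⟨e x, hS1 x hx⟩ : Set.Iio b) ∈ {t : Set.Iio b | e.symm t.1 ∈ S} := by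
            show e.symm (e x) ∈ S
            rw [e.symm_apply_apply]; exact hx
          have hm2 : e.symm (e x) ∈ S' := (Set.ext_iff.1 hfg _).1 hm
          rwa [e.symm_apply_apply] at hm2
        · intro hx
          have hm : (⟨e x, hS1' x hx⟩ : Set.Iio b) ∈ {t : Set.Iio b | e.symm t.1 ∈ S'} := by
            show e.symm (e x) ∈ S'
            rw [e.symm_apply_apply]; exact hx
          have hm2 : e.symm (e x) ∈ S := (Set.ext_iff.1 hfg _).2 hm
          rwa [e.symm_apply_apply] at hm2
      refine h1.trans (le_of_lt ?_)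
      rw [mk_set]
      exact h.lim b
    · rintro ⟨S, hS⟩
      obtain ⟨b, hb⟩ := h.reg (e '' S) (mk_image_le.trans_lt hS)
      exact ⟨b, fun x hx => hb _ ⟨x, hx, rfl⟩⟩
  · rw [← hX]
    refine mk_le_of_injective (f := fun x : X => (⟨{x}, by
      rw [mk_singleton]
      exact one_lt_aleph0.trans (hX ▸ h.unc)⟩ : {S : Set X // #S < #X})) ?_
    intro x y hxy
    have := congrArg Subtype.val hxy
    exact Set.singleton_injective this

theorem stp_of_inac (K : Type) [LinearOrder K] (h : Inac K) : Nonempty (Stp K) := by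
  have hκ : ℵ₀ ≤ #K := h.unc.le
  have hd : Nonempty K := by
    rw [← mk_ne_zero_iff]
    exact (aleph0_pos.trans h.unc).ne'
  have hwf : WellFounded (fun a b : K => a < b) := h.wf.wf
  let bt : K := hwf.min Set.univ Set.univ_nonempty
  have hbt : ∀ a, bt ≤ a := fun a => not_lt.1 (hwf.not_lt_min Set.univ (Set.mem_univ a))
  have hX : #(Fn K × K × K) = #K := by
    apply le_antisymm
    · simp only [mk_prod, lift_id]
      rw [mul_eq_self hκ]
      exact (mul_le_mul_left (kc_fn h) _).trans (mul_eq_self hκ).le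
    · refine mk_le_of_injective (f := fun a : K =>
        ((⟨fun _ => none, bt, fun a ha => (ha rfl).elim⟩, a, a) : Fn K × K × K)) ?_
      intro a b hab
      exact congrArg (fun t : Fn K × K × K => t.2.1) hab
  obtain ⟨e⟩ := Cardinal.eq.1 (kc_sets h hX).symm
  exact ⟨⟨h, bt, hbt, e⟩⟩

end Pool.Agent.SplK
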