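import Pool.Agent.SplK.Nf
import Pool.Agent.SplK.RDefs2

set_option autoImplicit false
set_option linter.all false

/-!
# Module Kx (the critical points) difficulty 2

`kx k x` (RDefs2) is the least a : K with `k a ∉ x` (if there is one). All statements for W-almost all x : Set Θ.
* `kx_spec`: since `#x < #K` (small) and k is injective, the set {a | k a ∉ x} is nonempty, so `k (kx k x) ∉ x` and `k a ∈ x` for a < kx k x.
  Remains: eventually x has no a with `kx k x < a`, `k a ∈ x`. Otherwise (ultrafilter) eventually there is such an a = f x; by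
  `nfu_const` f x = a is constant eventually; then `kx k x ∈ Iio a`, a set of size < #K (`Stp.inac.seg`), so by `nfu_small`
  kx k x = b is constant eventually, but `k b ∈ x` eventually (fine): contradiction with k (kx k x) ∉ x.
* `kx_large`: fine and kx_spec.
* `kx_const`: `nfu_const` with g = k and kx_spec.
* `kx_diag`: `nfu_diag` with g = k and kx_spec.
-/

namespace Pool.Agent.SplK

open Cardinal

variable {K : Type} [LinearOrder K] [Stp K] {Θ : Type} {W : Ultrafilter (Set Θ)}

theorem kx_spec (hW : NFU #K Θ W) (k : K → Θ) (hk : Function.Injective k) :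
    ∀ᶠ x : Set Θ in (W : Filter (Set Θ)), ∀ a, k a ∈ x ↔ a < kx k x := by
  have h0 : ∀ᶠ x : Set Θ in (W : Filter (Set Θ)), k (kx k x) ∉ x ∧ ∀ a < kx k x, k a ∈ x := by
    refine hW.small.mono (fun x hx => ?_)
    have hne : {a | k a ∉ x}.Nonempty := by
      by_contra hcon
      rw [Set.not_nonempty_iff_eq_empty] at hcon
      have h1 : ∀ a, k a ∈ x := fun a => by
        by_contra ha
        have : a ∈ {a | k a ∉ x} := ha
        rw [hcon] at this
        exact this
      have h2 : #K ≤ #x := Cardinal.mk_le_of_injective (f := fun a => (⟨k a, h1 a⟩ : x)) (fun a b hab => hk (by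
        simpa using hab))
      exact absurd hx (not_lt.mpr h2)
    have h3 : kx k x = (wellFounded_lt (α := K)).min {a | k a ∉ x} hne := by
      rw [kx, dif_pos hne]
    rw [h3]
    refine ⟨(wellFounded_lt (α := K)).min_mem {a | k a ∉ x} hne, fun a ha => ?_⟩
    by_contra hax
    exact (wellFounded_lt (α := K)).not_lt_min {a | k a ∉ x} hax ha
  have h1 : ∀ᶠ x : Set Θ in (W : Filter (Set Θ)), ¬ ∃ a, kx k x < a ∧ k a ∈ x := by
    by_contra hcon
    have h2 : ∀ᶠ x : Set Θ in (W : Filter (Set Θ)), ∃ a, kx k x < a ∧ k a ∈ x := by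
      refine (Ultrafilter.eventually_not.mpr hcon).mono (fun x hx => ?_)
      exact not_not.mp hx
    classical
    have h3 : ∀ᶠ x : Set Θ in (W : Filter (Set Θ)), k (if h : ∃ a, kx k x < a ∧ k a ∈ x then h.choose else Stp.bt) ∈ x :=
      h2.mono (fun x hx => by rw [dif_pos hx]; exact hx.choose_spec.2)
    obtain ⟨a, ha⟩ := nfu_const hW k hk _ h3
    have h4 : ∀ᶠ x : Set Θ in (W : Filter (Set Θ)), kx k x ∈ Set.Iio a := (h2.and ha).mono (fun x hx => by
      obtain ⟨h5, h6⟩ := hx
      rw [dif_pos h5] at h6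
      have := h5.choose_spec.1
      rw [h6] at this
      exact this)
    obtain ⟨b, _, hb⟩ := nfu_small hW (Set.Iio a) (Stp.inac.seg a) _ h4
    obtain ⟨x, hx1, hx2, hx3⟩ := (hb.and (h0.and (hW.fine (k b)))).exists
    rw [hx1] at hx2
    exact hx2.1 hx3
  filter_upwards [h0, h1] with x hx1 hx2 a
  refine ⟨fun ha => ?_, fun ha => hx1.2 a ha⟩
  rcases lt_trichotomy a (kx k x) with h | h | h
  · exact h
  · rw [h] at ha
    exact (hx1.1 ha).elim
  · exact (hx2 ⟨a, h, ha⟩).elim

theorem kx_large (hW : NFU #K Θ W) (k : K → Θ) (hk : Function.Injective k) (a : K) :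
    ∀ᶠ x : Set Θ in (W : Filter (Set Θ)), a < kx k x := by
  filter_upwards [kx_spec hW k hk, hW.fine (k a)] with x h1 h2
  exact (h1 a).mp h2

theorem kx_const (hW : NFU #K Θ W) (k : K → Θ) (hk : Function.Injective k) (f : Set Θ → K)
    (h : ∀ᶠ x : Set Θ in (W : Filter (Set Θ)), f x < kx k x) : ∃ a, ∀ᶠ x : Set Θ in (W : Filter (Set Θ)), f x = a := by
  refine nfu_const hW k hk f ?_
  filter_upwards [kx_spec hW k hk, h] with x h1 h2
  exact (h1 _).mpr h2

theorem kx_diag (hW : NFU #K Θ W) (k : K → Θ) (hk : Function.Injective k) (p : K → Set Θ → Prop)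
    (h : ∀ a, ∀ᶠ x : Set Θ in (W : Filter (Set Θ)), p a x) :
    ∀ᶠ x : Set Θ in (W : Filter (Set Θ)), ∀ a < kx k x, p a x := by
  filter_upwards [kx_spec hW k hk, nfu_diag hW k hk p h] with x h1 h2 a ha
  exact h2 a ((h1 a).mpr ha)

end Pool.Agent.SplK
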