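import Pool.Agent.SplK.RDefs2

set_option autoImplicit false
set_option linter.all false

/-!
# The data for the measure
-/

namespace Pool.Agent.SplK

open Cardinal

variable {K : Type} [LinearOrder K] [Stp K] {T : Type}

/-- The tail condition `m` is a master condition which decides, modulo the conditions up to the stage `a`, whether `a` belongs to
the subsets of `K` named by the elements of `X`. -/
structure MData (P : RPos (RR K) T) (x : Set T) (X : Set (K → Set (Star P))) (a D : K) (c : T → K)
    (m : RR K × T) : Prop where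
  rfl : Rfl P x a D c
  le : ∀ s, Bl a s → ∀ t ∈ x, tw P (sx a) (ex a D s (c t)) m ≤ ⟨s, t⟩
  dec : ∀ Z ∈ X, ∀ w, Bl (sx a) w → w ≤ ex a D ⊤ Stp.bt → ∃ w', Bl (sx a) w' ∧ w' ≤ w ∧
    (Frc (Z a) (tw P (sx a) w' m) ∨ tw P (sx a) w' m ∈ Neg (Z a))

end Pool.Agent.SplK
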