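import Pool.Agent.SplK.Dl
import Pool.Agent.SplK.Qm
import Pool.Agent.SplK.MDefs

set_option autoImplicit false
set_option linter.all false

/-!
# Module Mx (master conditions which decide) difficulty 2

Take q from `master`. m0 := (⊤, q). For s with Bl a s, t ∈ x: `tw P (sx a) (ex a D s (c t)) m0 ≤ ⟨s, t⟩`: first coordinate `cr_ex_le` (c t ∈ und D by h.und); second: P.le (cr (sx a) (ex ..) ⊤) q t: P.mono from
`P.le (ex a D s (c t)) q t`, as cr (sx a) (ex ..) ⊤ ≤ ex .. (in fact equal: ex lives below sx a, `ex_bl`).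
Apply `decide_lemma` at the cut sx a, r0 := ex a D ⊤ bt, index type J := X (as a type), E Z := {z | Frc (Z a) z ∨ z ∈ Neg (Z a)} (dense: `frc_or_neg`; downward closed: Frc.mono, Neg.mono), m := m0. It gives m with
tw P (sx a) r0 m ≤ tw P (sx a) r0 m0 and the deciding property (dec; note `rr (sx a) r0 = r0` because Bl (sx a) r0). hB: a condition w with Bl (sx a) w, w ≤ r0 is
ex a D (rr a w) t with t ∈ und D = c '' x (`ex_surj`), so it is determined by (rr a w).f ∈ Cd a and t: at most `#(Cd a) * #x ≤ μ * μ = μ` many.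
le: `tw_mono` with w = ex a D s (c t) (rr (sx a) w ≤ rr (sx a) r0: `ex_le_iff`) gives tw P (sx a) w m ≤ tw P (sx a) w m0 ≤ ⟨s, t⟩.
-/

namespace Pool.Agent.SplK

open Cardinal

variable {K : Type} [LinearOrder K] [Stp K] {T : Type}

theorem mx_rr_of_bl {a : K} {w : RR K} (h : Bl a w) : rr a w = w := RR.ext (cd_rs h)

theorem mx_cr_top {a : K} {w : RR K} (h : Bl a w) : cr a w ⊤ = w := RR.ext (cd_rs h)

theorem mx_card {x : Set T} {a D : K} {c : T → K} {P : RPos (RR K) T} (h : Rfl P x a D c) (μ : Cardinal.{0})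
    (hμ : ℵ₀ ≤ μ) (hx : #x ≤ μ) (hC : #(Cd a) ≤ μ) :
    #{w : RR K // Bl (sx a) w ∧ w ≤ rr (sx a) (ex a D ⊤ Stp.bt)} ≤ μ := by
  have hbt : (Stp.bt : K) ∈ und D := (val_iff.mp h.val).bot
  have hr0 : rr (sx a) (ex a D ⊤ Stp.bt) = ex a D ⊤ Stp.bt := mx_rr_of_bl (ex_bl h.val hbt ⊤)
  have hex : ∀ w : {w : RR K // Bl (sx a) w ∧ w ≤ rr (sx a) (ex a D ⊤ Stp.bt)},
      ∃ t : x, w.1 = ex a D (rr a w.1) (c t.1) := by
    intro w
    have hw : w.1 ≤ ex a D ⊤ Stp.bt := le_of_le_of_eq w.2.2 hr0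
    obtain ⟨t, ht, hwt⟩ := ex_surj h.val w.2.1 hw
    rw [h.und] at ht
    obtain ⟨t', ht', rfl⟩ := ht
    exact ⟨⟨t', ht'⟩, hwt⟩
  choose g hg using hex
  have hinj : Function.Injective (fun w : {w : RR K // Bl (sx a) w ∧ w ≤ rr (sx a) (ex a D ⊤ Stp.bt)} =>
      ((⟨(rr a w.1).f, rs_mem w.1.ok⟩, g w) : Cd a × x)) := by
    intro w w' hww
    have h1 : (rr a w.1).f = (rr a w'.1).f := congrArg (fun z : Cd a × x => z.1.1) hww
    have h2 : g w = g w' := congrArg (fun z : Cd a × x => z.2) hww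
    have h3 : rr a w.1 = rr a w'.1 := RR.ext h1
    apply Subtype.ext
    rw [hg w, hg w', h3, h2]
  refine (mk_le_of_injective hinj).trans ?_
  rw [mk_prod, lift_id, lift_id]
  exact (mul_le_mul' hC hx).trans (mul_eq_self hμ).le

theorem exists_mdata (P : RPos (RR K) T) (hP : P.Closed #K) {x : Set T} (X : Set (K → Set (Star P))) {a D : K}
    {c : T → K} (h : Rfl P x a D c) (μ : Cardinal.{0}) (hμ : ℵ₀ ≤ μ) (hμK : μ < #K) (hμa : Big (sx a) μ)
    (hx : #x ≤ μ) (hX : #X ≤ μ) (hC : #(Cd a) ≤ μ) : ∃ m, MData P x X a D c m := by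
  obtain ⟨q, hq⟩ := master P hP h (hx.trans_lt hμK)
  have hbt : (Stp.bt : K) ∈ und D := (val_iff.mp h.val).bot
  have hct : ∀ t ∈ x, c t ∈ und D := by
    intro t ht
    rw [h.und]
    exact ⟨t, ht, rfl⟩
  have hle0 : ∀ s, Bl a s → ∀ t ∈ x, tw P (sx a) (ex a D s (c t)) (⊤, q) ≤ (⟨s, t⟩ : Star P) := by
    intro s hs t ht
    rw [star_le]
    refine ⟨cr_ex_le h.val (hct t ht) hs ⊤, ?_⟩
    refine P.mono (ex a D s (c t)) _ q t ?_ (hq s hs t ht)
    show cr (sx a) (ex a D s (c t)) ⊤ ≤ ex a D s (c t)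
    rw [mx_cr_top (ex_bl h.val (hct t ht) s)]
  have hr0 : rr (sx a) (ex a D ⊤ Stp.bt) = ex a D ⊤ Stp.bt := mx_rr_of_bl (ex_bl h.val hbt ⊤)
  obtain ⟨m, hm, hdec⟩ := decide_lemma P hP (sx a) (ex a D ⊤ Stp.bt) μ hμ hμa hμK
    (mx_card h μ hμ hx hC) X hX (fun Z => {z | Frc (Z.1 a) z ∨ z ∈ Neg (Z.1 a)})
    (by
      intro j z
      rcases frc_or_neg (j.1 a) z with h1 | ⟨z', h1, h2⟩
      · exact ⟨z, le_rfl, Or.inl h1⟩
      · exact ⟨z', h1, Or.inr h2⟩)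
    (by
      intro j z hz z' hz'
      rcases hz with h1 | h1
      · exact Or.inl (h1.mono hz')
      · exact Or.inr (Neg.mono h1 hz'))
    (⊤, q)
  refine ⟨m, h, ?_, ?_⟩
  · intro s hs t ht
    refine le_trans (tw_mono P hm ?_) (hle0 s hs t ht)
    rw [hr0, mx_rr_of_bl (ex_bl h.val (hct t ht) s), ex_le_iff h.val hbt (hct t ht)]
    refine ⟨?_, (val_iff.mp h.val).le_top _ (rs_mem s.ok) _ (hct t ht)⟩
    rw [rr_le, rr_f, rr_f, top_f, rs_emp]
    exact leF_emp _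
  · intro Z hZ w hw hwr
    obtain ⟨w', h1, h2, h3⟩ := hdec ⟨Z, hZ⟩ w hw (by rw [hr0]; exact hwr)
    exact ⟨w', h1, h2, h3⟩

end Pool.Agent.SplK
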