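import Pool.Agent.SplK.RDefs2

set_option autoImplicit false
set_option linter.all false

/-!
# Traces of names of forcing notions
-/

namespace Pool.Agent.SplK

open Cardinal

variable {K : Type} [LinearOrder K] [Stp K] {T : Type}

/-- The trace of `P` on `x` at the stage `a` is separative over the conditions below `a`. -/
def TrDen (P : RPos (RR K) T) (x : Set T) (a : K) : Prop := ∀ s, Bl a s → ∀ t' ∈ x, ∀ t ∈ x,
  (∀ s', Bl a s' → s' ≤ s → ∃ s'', Bl a s'' ∧ s'' ≤ s' ∧ P.le s'' t' t) → P.le s t' t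

/-- The trace of `P` on `x` at the stage `a` has mixtures. -/
def TrMix (P : RPos (RR K) T) (x : Set T) (a : K) : Prop := ∀ b : Set (RR K), (∀ s ∈ b, Bl a s) →
  (∀ s ∈ b, ∀ s', Bl a s' → s' ≤ s → s' ∈ b) → ∀ t ∈ x, ∀ t' ∈ x, ∃ t'' ∈ x,
    (∀ s ∈ b, P.le s t'' t ∧ P.le s t t'') ∧
    ∀ s, Bl a s → (∀ s', Bl a s' → s' ≤ s → s' ∉ b) → P.le s t'' t' ∧ P.le s t' t''

/-- The trace of `P` on `x` at the stage `a` is directed closed. -/
def TrClo (P : RPos (RR K) T) (x : Set T) (a : K) : Prop := ∀ (ι : Type) (f : ι → T) (s : RR K), Bl a s →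
  #ι < #(Set.Iio a) → (∀ i, f i ∈ x) →
  (∀ i j, ∀ s', Bl a s' → s' ≤ s → ∃ s'', Bl a s'' ∧ s'' ≤ s' ∧ ∃ k, P.le s'' (f k) (f i) ∧ P.le s'' (f k) (f j)) →
  ∃ t ∈ x, ∀ i, P.le s t (f i)

/-- `D` codes the trace of `P` on `x` at the stage `a`, transported by `c`. -/
structure IsCode (P : RPos (RR K) T) (x : Set T) (a D : K) (c : T → K) : Prop where
  inj : ∀ t ∈ x, ∀ t' ∈ x, c t = c t' → t = t'
  top_mem : P.top ∈ x
  top : c P.top = Stp.bt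
  ini : ∃ l, c '' x = Set.Iio l ∧ ∃ n, #(Set.Iio l) ≤ pl #(Set.Iio a) n
  le : ∀ s t' t, leD D s t' t ↔ ∃ s0 : RR K, Bl a s0 ∧ s0.f = s ∧ ∃ y' ∈ x, ∃ y ∈ x, c y' = t' ∧ c y = t ∧ P.le s0 y' y

end Pool.Agent.SplK
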