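import Pool.Agent.SplK.TrDefs

set_option autoImplicit false
set_option linter.all false

/-!
# Module RvC (the code of a trace is valid) difficulty 3

und: t ∈ und D ↔ leD D emp t t ↔ (h.le with s0 = ⊤, `top_f`; s0.f = emp forces s0 = ⊤ by RR.ext) ∃ y' y ∈ x, c y' = t = c y, P.le ⊤ y' y ↔ t ∈ c '' x (y' = y by inj; P.refl). So `und D = c '' x`.
le: for s with Bl a s and y', y ∈ x: leD D s.f (c y') (c y) ↔ P.le s y' y (s0 = s by RR.ext; inj).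
val: `val_iff.mpr`, fields of ValC a (Cd a) D (an element s of Cd a is s0.f for s0 = ⟨s, cd_ok _⟩):
 act = ha; siz: h.ini with und D = c '' x = Iio l; bot: c P.top = bt ∈ c '' x; sub: h.le; refl: P.refl; trans: P.trans; le_top: P.le_top with h.top; mono: P.mono; dense: hden; mix: hmix for
 the set b' := {s0 : RR K | s0.f ∈ b}; clo: hclo: for the family f i ∈ und D = c '' x choose y i ∈ x with c (y i) = f i.
-/

namespace Pool.Agent.SplK

open Cardinal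

variable {K : Type} [LinearOrder K] [Stp K] {T : Type}

theorem rfl_of_code (P : RPos (RR K) T) {x : Set T} {a D : K} {c : T → K} (h : IsCode P x a D c)
    (ha : Inac (Set.Iio a)) (hden : TrDen P x a) (hmix : TrMix P x a) (hclo : TrClo P x a) : Rfl P x a D c := by
  have key : ∀ s : RR K, Bl a s → ∀ t' ∈ x, ∀ t ∈ x, (leD D s.f (c t') (c t) ↔ P.le s t' t) := by
    intro s hs t' ht' t ht
    rw [h.le]
    constructor
    · rintro ⟨s0, h1, h2, y', hy', y, hy, h3, h4, h5⟩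
      have e1 : s0 = s := RR.ext h2
      have e2 : y' = t' := h.inj _ hy' _ ht' h3
      have e3 : y = t := h.inj _ hy _ ht h4
      subst e1 e2 e3
      exact h5
    · exact fun h1 => ⟨s, hs, rfl, t', ht', t, ht, rfl, rfl, h1⟩
  have lift : ∀ s ∈ Cd a, ∃ s0 : RR K, s0.f = s ∧ Bl a s0 := fun s hs => ⟨⟨s, cd_ok hs⟩, rfl, hs⟩
  have hund : und D = c '' x := by
    ext t
    constructor
    · intro ht
      obtain ⟨s0, h1, h2, y', hy', y, hy, h3, h4, h5⟩ := (h.le emp t t).1 ht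
      exact ⟨y, hy, h4⟩
    · rintro ⟨y, hy, rfl⟩
      exact (h.le emp _ _).2 ⟨⊤, emp_mem a, rfl, y, hy, y, hy, rfl, rfl, P.refl _ _⟩
  refine ⟨h.inj, h.top_mem, h.top, hund, key, val_iff.mpr ?_⟩
  refine ⟨ha, ?_, ?_, ?_, ?_, ?_, ?_, ?_, ?_, ?_, ?_⟩
  · obtain ⟨l, h1, h2⟩ := h.ini
    exact ⟨l, hund.trans h1, h2⟩
  · rw [hund]
    exact ⟨P.top, h.top_mem, h.top⟩
  · intro s t' t hle
    obtain ⟨s0, h1, h2, y', hy', y, hy, h3, h4, h5⟩ := (h.le s t' t).1 hle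
    rw [hund]
    exact ⟨h2 ▸ h1, ⟨y', hy', h3⟩, ⟨y, hy, h4⟩⟩
  · intro s hs t ht
    obtain ⟨s0, rfl, hs0⟩ := lift s hs
    rw [hund] at ht
    obtain ⟨y, hy, rfl⟩ := ht
    exact (key s0 hs0 y hy y hy).2 (P.refl _ _)
  · intro s t₁ t₂ t₃ h12 h23
    obtain ⟨s0, h1, rfl, y₁, hy₁, y₂, hy₂, rfl, rfl, h5⟩ := (h.le s t₁ t₂).1 h12
    obtain ⟨s0', h1', h2', y₂', hy₂', y₃, hy₃, h3', rfl, h5'⟩ := (h.le _ _ t₃).1 h23
    have e1 : s0' = s0 := RR.ext h2'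
    have e2 : y₂' = y₂ := h.inj _ hy₂' _ hy₂ h3'
    subst e1 e2
    exact (key s0' h1 y₁ hy₁ y₃ hy₃).2 (P.trans _ _ _ _ h5 h5')
  · intro s hs t ht
    obtain ⟨s0, rfl, hs0⟩ := lift s hs
    rw [hund] at ht
    obtain ⟨y, hy, rfl⟩ := ht
    rw [← h.top]
    exact (key s0 hs0 y hy P.top h.top_mem).2 (P.le_top _ _)
  · intro s hs s' hs' hle t' t ht
    obtain ⟨s0', rfl, hs0'⟩ := lift s' hs'
    obtain ⟨s0, h1, rfl, y', hy', y, hy, rfl, rfl, h5⟩ := (h.le s t' t).1 ht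
    exact (key s0' hs0' y' hy' y hy).2 (P.mono s0 s0' y' y hle h5)
  · intro s hs t' ht' t ht hd
    obtain ⟨s0, rfl, hs0⟩ := lift s hs
    rw [hund] at ht ht'
    obtain ⟨y, hy, rfl⟩ := ht
    obtain ⟨y', hy', rfl⟩ := ht'
    refine (key s0 hs0 y' hy' y hy).2 (hden s0 hs0 y' hy' y hy fun s' hs' hle => ?_)
    obtain ⟨s'', h1, h2, h3⟩ := hd s'.f hs' hle
    obtain ⟨s1, rfl, hs1⟩ := lift s'' h1
    exact ⟨s1, hs1, h2, (key s1 hs1 y' hy' y hy).1 h3⟩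
  · intro b hb hb' t ht t' ht'
    rw [hund] at ht ht'
    obtain ⟨y, hy, rfl⟩ := ht
    obtain ⟨y', hy', rfl⟩ := ht'
    obtain ⟨y'', hy'', h1, h2⟩ := hmix {s0 : RR K | s0.f ∈ b} (fun s hs => hb hs)
      (fun s hs s' hs' hle => hb' s.f hs s'.f hs' hle) y hy y' hy'
    refine ⟨c y'', by rw [hund]; exact ⟨y'', hy'', rfl⟩, fun s hs => ?_, fun s hs hno => ?_⟩
    · obtain ⟨s0, rfl, hs0⟩ := lift s (hb hs)
      obtain ⟨h3, h4⟩ := h1 s0 hs
      exact ⟨(key s0 hs0 _ hy'' _ hy).2 h3, (key s0 hs0 _ hy _ hy'').2 h4⟩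
    · obtain ⟨s0, rfl, hs0⟩ := lift s hs
      obtain ⟨h3, h4⟩ := h2 s0 hs0 fun s' hs' hle => hno s'.f hs' hle
      exact ⟨(key s0 hs0 _ hy'' _ hy').2 h3, (key s0 hs0 _ hy' _ hy'').2 h4⟩
  · intro ι f s hs hι hf hdir
    obtain ⟨s0, rfl, hs0⟩ := lift s hs
    rw [hund] at hf
    choose F hF hFf using hf
    obtain ⟨t, ht, ht'⟩ := hclo ι F s0 hs0 hι hF (by
      intro i j s' hs' hle
      obtain ⟨s'', h1, h2, l, h3, h4⟩ := hdir i j s'.f hs' hle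
      obtain ⟨s1, rfl, hs1⟩ := lift s'' h1
      rw [← hFf l, ← hFf i] at h3
      rw [← hFf l, ← hFf j] at h4
      exact ⟨s1, hs1, h2, l, (key s1 hs1 _ (hF l) _ (hF i)).1 h3, (key s1 hs1 _ (hF l) _ (hF j)).1 h4⟩)
    refine ⟨c t, by rw [hund]; exact ⟨t, ht, rfl⟩, fun i => ?_⟩
    rw [← hFf i]
    exact (key s0 hs0 _ ht _ (hF i)).2 (ht' i)

end Pool.Agent.SplK
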