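import Pool.Agent.SplK.Kd
import Pool.Agent.SplK.TrDefs

set_option autoImplicit false
set_option linter.all false

/-!
# Module TrA (separativity reflects) difficulty 2

a_x := kx k x, x_T := {t | g t ∈ x}. Suppose not: eventually (ultrafilter) there are s = s_x, t' = t'_x, t = t_x with Bl a_x s, t, t' ∈ x_T, the density
hypothesis of TrDen and ¬ P.le s t' t. By `cd_const`, `nfu_const` (twice) they are constant eventually: s, t', t. By P.dense (contrapositive) there is s' ≤ s in RR K such that no s'' ≤ s' has P.le s'' t' t.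
Eventually Bl a_x s' (`cd_large`): contradiction with the density hypothesis at such an x.
(Choose the witnesses as functions of x with `Classical.choice`; RR K and T are nonempty.)
-/

namespace Pool.Agent.SplK

open Cardinal

variable {K : Type} [LinearOrder K] [Stp K] {Θ : Type} {W : Ultrafilter (Set Θ)} {T : Type}

theorem tr_den (hW : NFU #K Θ W) (k : K → Θ) (hk : Function.Injective k) (g : T → Θ) (hg : Function.Injective g)
    (P : RPos (RR K) T) : ∀ᶠ x : Set Θ in (W : Filter (Set Θ)), TrDen P {t | g t ∈ x} (kx k x) := by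
  classical
  by_contra hcon
  rw [← Ultrafilter.eventually_not] at hcon
  have h1 : ∀ x : Set Θ, ∃ z : RR K × T × T, ¬ TrDen P {t | g t ∈ x} (kx k x) →
      Bl (kx k x) z.1 ∧ g z.2.1 ∈ x ∧ g z.2.2 ∈ x ∧
      (∀ s', Bl (kx k x) s' → s' ≤ z.1 → ∃ s'', Bl (kx k x) s'' ∧ s'' ≤ s' ∧ P.le s'' z.2.1 z.2.2) ∧
      ¬ P.le z.1 z.2.1 z.2.2 := by
    intro x
    by_cases hx : TrDen P {t | g t ∈ x} (kx k x)
    · exact ⟨(⊤, P.top, P.top), fun h => absurd hx h⟩
    · unfold TrDen at hx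
      push Not at hx
      obtain ⟨s, hs, t', ht', t, ht, hd, hn⟩ := hx
      exact ⟨(s, t', t), fun _ => ⟨hs, ht', ht, hd, hn⟩⟩
  choose z hz using h1
  have h2 : ∀ᶠ x : Set Θ in (W : Filter (Set Θ)), Bl (kx k x) (z x).1 ∧ g (z x).2.1 ∈ x ∧ g (z x).2.2 ∈ x ∧
      (∀ s', Bl (kx k x) s' → s' ≤ (z x).1 → ∃ s'', Bl (kx k x) s'' ∧ s'' ≤ s' ∧
        P.le s'' (z x).2.1 (z x).2.2) ∧ ¬ P.le (z x).1 (z x).2.1 (z x).2.2 :=
    hcon.mono (fun x hx => hz x hx)
  obtain ⟨s, hs⟩ := cd_const hW k hk (fun x => (z x).1) (h2.mono fun x hx => hx.1)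
  obtain ⟨t', ht'⟩ := nfu_const hW g hg (fun x => (z x).2.1) (h2.mono fun x hx => hx.2.1)
  obtain ⟨t, ht⟩ := nfu_const hW g hg (fun x => (z x).2.2) (h2.mono fun x hx => hx.2.2.1)
  have h3 : ¬ P.le s t' t := by
    obtain ⟨x, hx, e1, e2, e3⟩ := (h2.and (hs.and (ht'.and ht))).exists
    have h4 := hx.2.2.2.2
    rwa [e1, e2, e3] at h4
  have h4 : ∃ s' ≤ s, ∀ s'' ≤ s', ¬ P.le s'' t' t := by
    by_contra h
    push Not at h
    exact h3 (P.dense s t' t h)
  obtain ⟨s', hs', hn⟩ := h4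
  obtain ⟨x, hx, e1, e2, e3, e4⟩ := (h2.and (hs.and (ht'.and (ht.and (cd_large hW k hk s'))))).exists
  obtain ⟨s'', _, h5, h6⟩ := hx.2.2.2.1 s' e4 (by rw [e1]; exact hs')
  rw [e2, e3] at h6
  exact hn s'' h5 h6

end Pool.Agent.SplK
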