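import Pool.Agent.SplK.Kd
import Pool.Agent.SplK.TrDefs

set_option autoImplicit false
set_option linter.all false

/-!
# Module TrC (directed closure reflects) difficulty 3

a_x := kx k x, x_T := {t | g t ∈ x}. Suppose not: eventually there are ι_x, f_x : ι_x → T with values in x_T, s_x with Bl a_x s_x, #ι_x < #(Iio a_x), the directedness hypothesis, without lower
bound in x_T. Eventually Inac (Iio a_x) (`kx_inac`); `exists_seg` for the type `Iio a_x` gives b_x < a_x with `#ι_x ≤ #(Iio b_x)`. ι_x is nonempty (otherwise P.top is a lower bound, it is in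
x_T eventually), so there is a surjection `Iio b_x → ι_x`; composing we may assume f_x : K → T, the family being (f_x d) for d < b_x. By `kx_const` b_x = b eventually, by `cd_const` s_x = s
eventually. For each d < b: f_x d ∈ x_T, so by `nfu_const` f_x d = F d eventually; by `nfu_all` (index Iio b, #(Iio b) < #K by `Stp.inac.seg`) eventually f_x d = F d for all d < b.
Claim: `P.Dir (fun d : Iio b => F d) s`: given d, d', s' ≤ s: eventually Bl a_x s' (`cd_large`), so at such an x (with all the eventual properties) there are s'' ≤ s' and d''. P.Closed #K gives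
t with P.le s t (F d) for all d < b; eventually t ∈ x_T: contradiction.
-/

namespace Pool.Agent.SplK

open Cardinal

variable {K : Type} [LinearOrder K] [Stp K] {Θ : Type} {W : Ultrafilter (Set Θ)} {T : Type}

theorem tr_clo (hW : NFU #K Θ W) (k : K → Θ) (hk : Function.Injective k) (g : T → Θ) (hg : Function.Injective g)
    (P : RPos (RR K) T) (hP : P.Closed #K) :
    ∀ᶠ x : Set Θ in (W : Filter (Set Θ)), TrClo P {t | g t ∈ x} (kx k x) := by
  by_contra hcon
  rw [← Ultrafilter.eventually_not] at hcon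
  have h1 : ∀ᶠ x : Set Θ in (W : Filter (Set Θ)), ∃ z : K × (K → T) × RR K, z.1 < kx k x ∧
      Bl (kx k x) z.2.2 ∧ (∀ d < z.1, g (z.2.1 d) ∈ x) ∧
      (∀ d < z.1, ∀ d' < z.1, ∀ s', Bl (kx k x) s' → s' ≤ z.2.2 → ∃ s'', Bl (kx k x) s'' ∧ s'' ≤ s' ∧
        ∃ e < z.1, P.le s'' (z.2.1 e) (z.2.1 d) ∧ P.le s'' (z.2.1 e) (z.2.1 d')) ∧
      ¬ ∃ t, g t ∈ x ∧ ∀ d < z.1, P.le z.2.2 t (z.2.1 d) := by
    filter_upwards [hcon, kx_inac hW k hk, hW.fine (g P.top)] with x hx hinac htop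
    unfold TrClo at hx
    push Not at hx
    obtain ⟨ι, f, s, hs, hι, hf, hdir, hno⟩ := hx
    obtain ⟨b, hb⟩ := exists_seg hinac hι
    have hne : Nonempty ι := by
      by_contra hemp
      rw [not_nonempty_iff] at hemp
      obtain ⟨i, hi⟩ := hno P.top htop
      exact hemp.false i
    obtain ⟨e⟩ := (Cardinal.le_def _ _).1 hb
    have hsur := Function.invFun_surjective e.injective
    obtain ⟨φ, hφ⟩ : ∃ φ : ↥(Set.Iio b) → ι, Function.Surjective φ := ⟨_, hsur⟩
    classical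
    obtain ⟨F, hF⟩ : ∃ F : K → T, ∀ (d : K) (hd : d < b.1), F d = f (φ ⟨⟨d, hd.trans b.2⟩, hd⟩) := by
      refine ⟨fun d => if hd : d < b.1 then f (φ ⟨⟨d, hd.trans b.2⟩, hd⟩) else P.top, fun d hd => ?_⟩
      simp only [dif_pos hd]
    have hF' : ∀ i, ∃ d, d < b.1 ∧ F d = f i := by
      intro i
      obtain ⟨⟨⟨d, hd1⟩, hd2⟩, rfl⟩ := hφ i
      exact ⟨d, hd2, hF d hd2⟩
    refine ⟨⟨b.1, F, s⟩, b.2, hs, ?_, ?_, ?_⟩
    · intro d hd
      show g (F d) ∈ x
      rw [hF d hd]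
      exact hf _
    · intro d hd d' hd' s' hs' hs's
      obtain ⟨s'', h1, h2, i, h3, h4⟩ := hdir (φ ⟨⟨d, hd.trans b.2⟩, hd⟩) (φ ⟨⟨d', hd'.trans b.2⟩, hd'⟩) s' hs' hs's
      obtain ⟨e', he', he''⟩ := hF' i
      refine ⟨s'', h1, h2, e', he', ?_, ?_⟩
      · show P.le s'' (F e') (F d)
        rw [he'', hF d hd]
        exact h3
      · show P.le s'' (F e') (F d')
        rw [he'', hF d' hd']
        exact h4
    · rintro ⟨t, ht, ht'⟩
      obtain ⟨i, hi⟩ := hno t ht
      obtain ⟨d, hd, hd'⟩ := hF' i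
      apply hi
      rw [← hd']
      exact ht' d hd
  obtain ⟨z, hz⟩ := h1.choice
  obtain ⟨b, hb⟩ := kx_const hW k hk (fun x => (z x).1) (hz.mono fun x hx => hx.1)
  obtain ⟨s, hs⟩ := cd_const hW k hk (fun x => (z x).2.2) (hz.mono fun x hx => hx.2.1)
  have h2 : ∀ d : ↥(Set.Iio b), ∃ y, ∀ᶠ x : Set Θ in (W : Filter (Set Θ)), (z x).2.1 d.1 = y := by
    intro d
    refine nfu_const hW g hg (fun x => (z x).2.1 d.1) ?_
    filter_upwards [hz, hb] with x hx hbx
    exact hx.2.2.1 d.1 (by rw [hbx]; exact d.2)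
  choose F hF using h2
  have h3 := nfu_all hW (Stp.inac.seg b) (fun (d : ↥(Set.Iio b)) x => (z x).2.1 d.1 = F d) hF
  have hDir : P.Dir F s := by
    intro d d' s' hs'
    obtain ⟨x, hx, hbx, hsx, hFx, hlx⟩ := (hz.and (hb.and (hs.and (h3.and (cd_large hW k hk s'))))).exists
    obtain ⟨s'', h4, h5, e, he, h6, h7⟩ := hx.2.2.2.1 d.1 (by rw [hbx]; exact d.2) d'.1
      (by rw [hbx]; exact d'.2) s' hlx (by rw [hsx]; exact hs')
    rw [hbx] at he
    have e1 := hFx ⟨e, he⟩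
    have e2 := hFx d
    have e3 := hFx d'
    refine ⟨s'', h5, ⟨e, he⟩, ?_, ?_⟩
    · rw [← e1, ← e2]
      exact h6
    · rw [← e1, ← e3]
      exact h7
  obtain ⟨t, ht⟩ := hP _ F s (Stp.inac.seg b) hDir
  obtain ⟨x, hx, hbx, hsx, hFx, htx⟩ := (hz.and (hb.and (hs.and (h3.and (hW.fine (g t)))))).exists
  refine hx.2.2.2.2 ⟨t, htx, fun d hd => ?_⟩
  rw [hbx] at hd
  have e1 := hFx ⟨d, hd⟩
  rw [hsx]
  have e2 := ht ⟨d, hd⟩
  rw [← e1] at e2
  exact e2

end Pool.Agent.SplK
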