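import Pool.Agent.SplK.MuA
import Pool.Agent.SplK.Mx
import Pool.Agent.SplK.TrA
import Pool.Agent.SplK.TrB
import Pool.Agent.SplK.TrC
import Pool.Agent.SplK.RvA
import Pool.Agent.SplK.RvC

set_option autoImplicit false
set_option linter.all false

/-!
# Module MuB (property (H)) difficulty 2

Θ := K ⊕ T ⊕ (K → Set (Star P)), k := Sum.inl, g t := Sum.inr (Sum.inl t), j Z := Sum.inr (Sum.inr Z). Cardinality: `#(RR K) ≤ #K` (`card_RR_le`), so `#(Star P) ≤ #K * pl #K n ≤ pl #K n` (Star P is a copy of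
RR K × T; `mul_le_pl`), `#(K → Set (Star P)) = (2 ^ #(Star P)) ^ #K = 2 ^ (#(Star P) * #K) ≤ 2 ^ pl #K n = pl #K (n+1)` (`two_pow_pl`). So #K ≤ #Θ ≤ pl #K (n+1) (sum of three cardinals ≤ pl #K (n+1), infinite) and `eq_pl` gives N with #Θ = pl #K N. hsc gives W with
NFU #K Θ W. Eventually (kx_inac, tr_den, tr_mix, tr_clo, exists_code, rfl_of_code, small, kx_big): the hypotheses of `exists_mdata` for μ := #x, x_T := {t | g t ∈ x}, X := {Z | j Z ∈ x} (#x_T ≤ #x and #X ≤ #x by injectivity of g, j).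
Then `bmeas_of_mdata`.
-/

namespace Pool.Agent.SplK

open Cardinal

variable {K : Type} [LinearOrder K] [Stp K] {T : Type}

theorem mub_star (n : ℕ) (P : RPos (RR K) T) (hT : #T ≤ pl #K n) : #(Star P) ≤ pl #K n := by
  have h1 : #(Star P) ≤ #(RR K × T) := by
    refine mk_le_of_injective (f := fun z : Star P => (z.r, z.t)) ?_
    rintro ⟨r, t⟩ ⟨r', t'⟩ h
    have e1 : r = r' := congrArg Prod.fst h
    have e2 : t = t' := congrArg Prod.snd h
    rw [e1, e2]
  refine h1.trans ?_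
  rw [mk_prod, lift_id, lift_id]
  exact mul_le_pl (Stp.inac (K := K)).unc.le (card_RR_le.trans (le_pl _ _)) hT

theorem mub_card (hg : GCH0) (n : ℕ) (P : RPos (RR K) T) (hT : #T ≤ pl #K n) :
    #(K ⊕ T ⊕ (K → Set (Star P))) ≤ pl #K (n + 1) := by
  have hκ : ℵ₀ ≤ #K := (Stp.inac (K := K)).unc.le
  have h1 : #(K → Set (Star P)) ≤ pl #K (n + 1) := by
    rw [← power_def, mk_set]
    refine pow_le_pl hg hκ ?_ (le_pl _ _)
    rw [← two_pow_pl hg hκ n]
    exact power_le_power_left two_ne_zero (mub_star n P hT)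
  have hinf : ℵ₀ ≤ pl #K (n + 1) := hκ.trans (le_pl _ _)
  simp only [mk_sum, lift_id]
  refine (add_le_add (le_pl #K (n + 1)) (add_le_add (hT.trans (pl_mono (Nat.le_succ n))) h1)).trans ?_
  rw [add_eq_self hinf, add_eq_self hinf]

/-- Property (H): `K` stays measurable after the preparation followed by a small closed forcing. -/
theorem meas (hg : GCH0) (hsc : SC #K) (n : ℕ) (P : RPos (RR K) T) (hP : P.Closed #K) (hT : #T ≤ pl #K n) :
    ∃ μ, BMeas K (Star P) μ := by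
  have hle : #K ≤ #(K ⊕ T ⊕ (K → Set (Star P))) :=
    mk_le_of_injective (f := (Sum.inl : K → K ⊕ T ⊕ (K → Set (Star P)))) Sum.inl_injective
  obtain ⟨N, -, hΘ⟩ := eq_pl hle (mub_card hg n P hT)
  obtain ⟨W, hW⟩ := hsc N _ hΘ
  have hk : Function.Injective (Sum.inl : K → K ⊕ T ⊕ (K → Set (Star P))) := Sum.inl_injective
  have hgi : Function.Injective (fun t : T => (Sum.inr (Sum.inl t) : K ⊕ T ⊕ (K → Set (Star P)))) :=
    fun t t' h => Sum.inl_injective (Sum.inr_injective h)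
  have hj : Function.Injective (fun Z : K → Set (Star P) =>
      (Sum.inr (Sum.inr Z) : K ⊕ T ⊕ (K → Set (Star P)))) :=
    fun t t' h => Sum.inr_injective (Sum.inr_injective h)
  refine bmeas_of_mdata hW Sum.inl hk (fun t : T => Sum.inr (Sum.inl t)) hgi P
    (fun Z => Sum.inr (Sum.inr Z)) hj ?_
  filter_upwards [kx_inac hW Sum.inl hk, tr_den hW Sum.inl hk _ hgi P, tr_mix hW Sum.inl hk _ hgi P,
    tr_clo hW Sum.inl hk _ hgi P hP, exists_code hW Sum.inl hk _ hgi P hT, hW.small,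
    kx_big hW Sum.inl hk hΘ] with x h1 h2 h3 h4 h5 h6 h7
  obtain ⟨D, c, hcode⟩ := h5
  have hR := rfl_of_code P hcode h1 h2 h3 h4
  obtain ⟨h8, h9, h10⟩ := h7
  obtain ⟨m, hm⟩ := exists_mdata P hP {Z | (Sum.inr (Sum.inr Z) : K ⊕ T ⊕ (K → Set (Star P))) ∈ x} hR
    #x h9 h6 h8
    (mk_le_of_injective (f := fun t : {t : T | (Sum.inr (Sum.inl t) : K ⊕ T ⊕ (K → Set (Star P))) ∈ x} =>
      (⟨_, t.2⟩ : x)) (fun t t' h => Subtype.ext (hgi (congrArg Subtype.val h))))
    (mk_le_of_injective (f := fun t : {Z : K → Set (Star P) |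
      (Sum.inr (Sum.inr Z) : K ⊕ T ⊕ (K → Set (Star P))) ∈ x} =>
      (⟨_, t.2⟩ : x)) (fun t t' h => Subtype.ext (hj (congrArg Subtype.val h)))) h10
  exact ⟨D, c, m, hm⟩

end Pool.Agent.SplK
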