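import Pool.Agent.SplK.Defs

set_option autoImplicit false
set_option linter.all false

/-!
# Module Nf (normal ultrafilters) difficulty 1

W is an ultrafilter on `Set Θ`, `NFU κ Θ W` (Defs): small, fine, complete (for fewer than κ sets), normal (regressive functions are
constant almost everywhere).
* `nfu_all`: `complete` for `A i = {x | p i x}`.
* `nfu_small`: if no s ∈ S works then for all s ∈ S eventually f x ≠ s (W is an ultrafilter: `Ultrafilter.eventually_not`); by
  `nfu_all` (index type S) eventually f x ≠ s for all s ∈ S, contradiction with f x ∈ S (W is not ⊥).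
* `nfu_const`: `normal` for `fun x => g (f x)`, then injectivity.
* `nfu_diag`: otherwise (ultrafilter) eventually there is y with g y ∈ x and ¬ p y x; choose f x; `nfu_const` gives y with f x = y
  eventually, so eventually ¬ p y x: contradiction with `h y`. (If Y is empty the statement is trivial.)
* `nfu_inter`: names of subsets: for b x ⊆ Y (x ∈ Set Θ) put b' := {y | eventually y ∈ b x}; then eventually for all y with g y ∈ x:
  (y ∈ b x ↔ y ∈ b') (apply `nfu_diag` to p y x := (y ∈ b x ↔ y ∈ b'), decide for each y by the ultrafilter).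
-/

namespace Pool.Agent.SplK

open Cardinal

variable {κ : Cardinal.{0}} {Θ : Type} {W : Ultrafilter (Set Θ)}

theorem nfu_all (hW : NFU κ Θ W) {ι : Type} (hι : #ι < κ) (p : ι → Set Θ → Prop)
    (h : ∀ i, ∀ᶠ x : Set Θ in (W : Filter (Set Θ)), p i x) : ∀ᶠ x : Set Θ in (W : Filter (Set Θ)), ∀ i, p i x := by
  have := hW.complete ι (fun i => {x | p i x}) hι h
  refine Filter.mem_of_superset this (fun x hx i => ?_)
  exact Set.mem_iInter.mp hx i

theorem nfu_small (hW : NFU κ Θ W) {β : Type} (S : Set β) (hS : #S < κ) (f : Set Θ → β)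
    (h : ∀ᶠ x : Set Θ in (W : Filter (Set Θ)), f x ∈ S) : ∃ s ∈ S, ∀ᶠ x : Set Θ in (W : Filter (Set Θ)), f x = s := by
  by_contra hcon
  push Not at hcon
  have h1 : ∀ s : S, ∀ᶠ x : Set Θ in (W : Filter (Set Θ)), f x ≠ s.1 := fun s => hcon s.1 s.2
  have h2 := nfu_all hW hS (fun s x => f x ≠ s.1) h1
  obtain ⟨x, hx1, hx2⟩ := (h.and h2).exists
  exact hx2 ⟨f x, hx1⟩ rfl

theorem nfu_const (hW : NFU κ Θ W) {Y : Type} (g : Y → Θ) (hg : Function.Injective g) (f : Set Θ → Y)
    (h : ∀ᶠ x : Set Θ in (W : Filter (Set Θ)), g (f x) ∈ x) : ∃ y, ∀ᶠ x : Set Θ in (W : Filter (Set Θ)), f x = y := by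
  obtain ⟨i, hi⟩ := hW.normal (fun x => g (f x)) h
  obtain ⟨x0, hx0⟩ := hi.exists
  refine ⟨f x0, hi.mono (fun x hx => hg (hx.trans hx0.symm))⟩

theorem nfu_diag (hW : NFU κ Θ W) {Y : Type} (g : Y → Θ) (hg : Function.Injective g) (p : Y → Set Θ → Prop)
    (h : ∀ y, ∀ᶠ x : Set Θ in (W : Filter (Set Θ)), p y x) :
    ∀ᶠ x : Set Θ in (W : Filter (Set Θ)), ∀ y, g y ∈ x → p y x := by
  classical
  by_contra hcon
  have h1 : ∀ᶠ x : Set Θ in (W : Filter (Set Θ)), ∃ y, g y ∈ x ∧ ¬ p y x := by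
    refine (Ultrafilter.eventually_not.mpr hcon).mono (fun x hx => ?_)
    push Not at hx
    exact hx
  obtain ⟨x0, y0, _⟩ := h1.exists
  have h2 : ∀ᶠ x : Set Θ in (W : Filter (Set Θ)), g (if h : ∃ y, g y ∈ x ∧ ¬ p y x then h.choose else y0) ∈ x :=
    h1.mono (fun x hx => by rw [dif_pos hx]; exact hx.choose_spec.1)
  obtain ⟨y, hy⟩ := nfu_const hW g hg _ h2
  obtain ⟨x, hx1, hx2, hx3⟩ := (h1.and (hy.and (h y))).exists
  rw [dif_pos hx1] at hx2
  exact hx1.choose_spec.2 (hx2.symm ▸ hx3)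

theorem nfu_inter (hW : NFU κ Θ W) {Y : Type} (g : Y → Θ) (hg : Function.Injective g) (b : Set Θ → Set Y) :
    ∀ᶠ x : Set Θ in (W : Filter (Set Θ)), ∀ y, g y ∈ x →
      (y ∈ b x ↔ ∀ᶠ x' : Set Θ in (W : Filter (Set Θ)), y ∈ b x') := by
  refine nfu_diag hW g hg _ (fun y => ?_)
  by_cases h : ∀ᶠ x' : Set Θ in (W : Filter (Set Θ)), y ∈ b x'
  · exact h.mono (fun x hx => ⟨fun _ => h, fun _ => hx⟩)
  · exact (Ultrafilter.eventually_not.mpr h).mono (fun x hx => ⟨fun h' => (hx h').elim, fun h' => (h h').elim⟩)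

end Pool.Agent.SplK
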