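import Pool.Agent.SplK.Sz

set_option autoImplicit false
set_option linter.all false

/-!
# Module Tv (the trivial forcing notion has a code) difficulty 1

Let `S := {z | z.1 ∈ Cd a ∧ z.2.1 = bt ∧ z.2.2 = bt}`; it has size `#(Cd a) < #K` (`card_Cd_lt`). Put `D := Stp.dec.symm ⟨S, _⟩`;
then `leD D s t' t ↔ s ∈ Cd a ∧ t' = bt ∧ t = bt`, `und D = {bt}` (`emp_mem`) `= Iio (sx bt)` (by `lt_sx_iff` and `bt_le`). Check
the fields of ValC (`val_iff`): siz with l = sx bt, n = 0: `#(Iio (sx bt)) = 1 ≤ #(Iio a)`; mix and clo with t'' = bt, t = bt (mono, refl,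
le_top, dense trivial; for dense use s' = s with `leF_refl` to see that the relation holds at some extension, so t' = t = bt).
-/

namespace Pool.Agent.SplK

open Cardinal

variable {K : Type} [LinearOrder K] [Stp K]

theorem exists_val (a : K) (ha : Inac (Set.Iio a)) : ∃ D, Val a D := by
  have hcard : #({z : Fn K × K × K | z.1 ∈ Cd a ∧ z.2.1 = Stp.bt ∧ z.2.2 = Stp.bt} : Set (Fn K × K × K)) < #K := by
    refine lt_of_le_of_lt ?_ (card_Cd_lt a)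
    refine mk_le_of_injective (f := fun z => (⟨z.1.1, z.2.1⟩ : Cd a)) ?_
    rintro ⟨⟨s, t', t⟩, h1, h2, h3⟩ ⟨⟨s2, t2', t2⟩, h4, h5, h6⟩ h
    simp only [Subtype.mk.injEq] at h h2 h3 h5 h6 ⊢
    rw [h, h2, h3, h5, h6]
  set D : K := Stp.dec.symm ⟨{z : Fn K × K × K | z.1 ∈ Cd a ∧ z.2.1 = Stp.bt ∧ z.2.2 = Stp.bt}, hcard⟩ with hD
  have hle : ∀ (s : Fn K) (t' t : K), leD D s t' t ↔ s ∈ Cd a ∧ t' = Stp.bt ∧ t = Stp.bt := by
    intro s t' t
    unfold leD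
    rw [hD, Equiv.apply_symm_apply]
    exact Iff.rfl
  have hund : und D = {Stp.bt} := by
    ext t
    constructor
    · intro h
      exact ((hle _ _ _).mp h).2.1
    · intro h
      rw [Set.mem_singleton_iff] at h
      exact (hle _ _ _).mpr ⟨emp_mem a, h, h⟩
  have hmem : ∀ {t : K}, t ∈ und D ↔ t = Stp.bt := by
    intro t
    rw [hund, Set.mem_singleton_iff]
  refine ⟨D, val_iff.mpr ?_⟩
  refine ⟨ha, ⟨sx Stp.bt, ?_, 0, ?_⟩, ?_, ?_, ?_, ?_, ?_, ?_, ?_, ?_, ?_⟩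
  · rw [hund]
    ext t
    rw [Set.mem_singleton_iff, Set.mem_Iio, lt_sx_iff]
    constructor
    · intro h
      rw [h]
    · intro h
      exact le_antisymm h (Stp.bt_le t)
  · have h1 : Set.Iio (sx (Stp.bt : K)) = {Stp.bt} := by
      ext t
      rw [Set.mem_singleton_iff, Set.mem_Iio, lt_sx_iff]
      constructor
      · intro h
        exact le_antisymm h (Stp.bt_le t)
      · intro h
        rw [h]
    rw [h1, mk_singleton, pl_zero]
    exact (one_lt_aleph0.trans ha.unc).le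
  · exact hmem.mpr rfl
  · intro s t' t h
    obtain ⟨h1, h2, h3⟩ := (hle _ _ _).mp h
    exact ⟨h1, hmem.mpr h2, hmem.mpr h3⟩
  · intro s hs t ht
    exact (hle _ _ _).mpr ⟨hs, hmem.mp ht, hmem.mp ht⟩
  · intro s t1 t2 t3 h1 h2
    exact (hle _ _ _).mpr ⟨((hle _ _ _).mp h1).1, ((hle _ _ _).mp h1).2.1, ((hle _ _ _).mp h2).2.2⟩
  · intro s hs t ht
    exact (hle _ _ _).mpr ⟨hs, hmem.mp ht, rfl⟩
  · intro s hs s' hs' _ t' t h
    exact (hle _ _ _).mpr ⟨hs', ((hle _ _ _).mp h).2⟩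
  · intro s hs t' ht' t ht _
    exact (hle _ _ _).mpr ⟨hs, hmem.mp ht', hmem.mp ht⟩
  · intro b hb _ t ht t' ht'
    refine ⟨Stp.bt, hmem.mpr rfl, fun s hs => ?_, fun s hs _ => ?_⟩
    · exact ⟨(hle _ _ _).mpr ⟨hb hs, rfl, hmem.mp ht⟩, (hle _ _ _).mpr ⟨hb hs, hmem.mp ht, rfl⟩⟩
    · exact ⟨(hle _ _ _).mpr ⟨hs, rfl, hmem.mp ht'⟩, (hle _ _ _).mpr ⟨hs, hmem.mp ht', rfl⟩⟩
  · intro ι f s hs _ hf _
    exact ⟨Stp.bt, hmem.mpr rfl, fun i => (hle _ _ _).mpr ⟨hs, rfl, hmem.mp (hf i)⟩⟩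

end Pool.Agent.SplK
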