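import Pool.Agent.SplK.Ar
import Pool.Agent.SplK.Tv

set_option autoImplicit false
set_option linter.all false

/-!
# Module Sb (a bound for the number of conditions up to a stage) difficulty 3

Put `δ := max ℵ₀ #(Iio b)`, `A := {c : K | c ≤ b ∧ Inac (Iio c)}` (the active stages ≤ b). If w is below `sx b` (`Bl (sx b) w`) and
`w.f c = some (D, t)` then c < sx b, i.e. c ≤ b, and `Val c D` so `Inac (Iio c)` (field act): c ∈ A.
Case 1: A empty: only w = ⊤ (all values none): the set has size ≤ 1; r' = r.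
Case 2: A has a greatest element c. If `r.f c = some (D, t)` put r' := r. Otherwise `r.f c = none`; take D with `Val c D` (`exists_val`), and
  let r' be r with the additional value (D, bt) at c (r'.f := function equal to r.f off c; it is Ok: Easton support: at each
  regular point the old bound, enlarged by c if c is below that point, using that the point is a limit; r' ≤ r: at a ≠ c the same
  value, `leD` reflexive as `rs a r' ∈ Cd a`). Let w be below sx b with w ≤ rr (sx b) r'. Then w.f c = some (D, t') with t' ∈ und D = Iio l,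
  `#(Iio l) ≤ pl #(Iio c) n`. w is determined by `rr c w` (an element of Cd c: `rs_mem`, at most `#(Iio c)` many by `card_Cd_le`) and t'
  (all values at stages > c, ≤ b are none because c = max A). So the number is ≤ #(Iio c) * pl #(Iio c) n ≤ pl δ n.
Case 3: A is nonempty without greatest element: for c ∈ A there is c' ∈ A with c < c', so `#(Xv c) < #(Iio c')` (`card_Xv_lt`, `card_Cd_lt'`
  with θ = #(Iio c') and `iio_lt_iio`) ≤ δ. w is determined by the function c : A ↦ w.f c ∈ Option (Xv c); #A ≤ #(Iio b) + 1 ≤ δ. So the number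
  is ≤ δ ^ δ = 2 ^ δ = pl δ 1 (GCH0). r' = r, n = 1.
-/

namespace Pool.Agent.SplK

open Cardinal

variable {K : Type} [LinearOrder K] [Stp K]

theorem sb_opt {f : Fn K} (h : Ok f) (c : K) : ∃ o : Option (Xv c), Option.map Subtype.val o = f.1 c := by
  cases hc : f.1 c with
  | none => exact ⟨none, rfl⟩
  | some z =>
    obtain ⟨D, t⟩ := z
    exact ⟨some ⟨(D, t), h.2 c D t hc⟩, rfl⟩

/-- The support of a condition up to the stage `b` consists of active stages. -/
theorem sb_act {b : K} {w : RR K} (h : Bl (sx b) w) {c : K} (hc : w.f.1 c ≠ none) : c ≤ b ∧ Inac (Set.Iio c) := by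
  obtain ⟨⟨D, t⟩, hDt⟩ := Option.ne_none_iff_exists'.mp hc
  obtain ⟨h1, h2, -⟩ := h.2 c D t hDt
  exact ⟨lt_sx_iff.mp h1, (val_iff.mp h2).act⟩

/-- Extending a condition to have a value at an active stage. -/
theorem sb_ext (r : RR K) {c : K} (hc : Inac (Set.Iio c)) : ∃ r' ≤ r, ∃ D t, r'.f.1 c = some (D, t) := by
  by_cases h : r.f.1 c = none
  · obtain ⟨D, hD⟩ := exists_val c hc
    have hbt := (val_iff.mp hD).bot
    have hok : Ok (ct (sx c) (ct c r.f (pt c D Stp.bt)) r.f) := ok_ct (ok_ct r.ok (ok_pt hD hbt)) r.ok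
    have hval : (ct (sx c) (ct c r.f (pt c D Stp.bt)) r.f).1 c = some (D, Stp.bt) := by
      rw [ct_lt (self_lt_sx c), ct_ge le_rfl, pt_self]
    have hoff : ∀ a, a ≠ c → (ct (sx c) (ct c r.f (pt c D Stp.bt)) r.f).1 a = r.f.1 a := by
      intro a ha
      rcases lt_or_gt_of_ne ha with h1 | h1
      · rw [ct_lt (h1.trans (self_lt_sx c)), ct_lt h1]
      · rw [ct_ge (sx_le_iff.mpr h1)]
    refine ⟨⟨_, hok⟩, ?_, D, Stp.bt, hval⟩
    rw [rr_le]
    intro a D' t hat
    have ha : a ≠ c := by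
      rintro rfl
      rw [h] at hat
      cases hat
    refine ⟨t, (hoff a ha).trans hat, ?_⟩
    obtain ⟨h1, h2⟩ := r.ok.2 a D' t hat
    exact (val_iff.mp h1).refl _ (rs_mem hok) t h2
  · obtain ⟨⟨D, t⟩, hDt⟩ := Option.ne_none_iff_exists'.mp h
    exact ⟨r, le_rfl, D, t, hDt⟩

theorem card_base (hg : GCH0) (b : K) (r : RR K) : ∃ r' ≤ r, ∃ n : ℕ,
    #{w : RR K // Bl (sx b) w ∧ w ≤ rr (sx b) r'} ≤ pl (max ℵ₀ #(Set.Iio b)) n := by
  have hδ : ℵ₀ ≤ max ℵ₀ #(Set.Iio b) := le_max_left _ _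
  have hIio : ∀ c ≤ b, #(Set.Iio c) ≤ max ℵ₀ #(Set.Iio b) := fun c hc =>
    (mk_le_mk_of_subset (Set.Iio_subset_Iio hc)).trans (le_max_right _ _)
  obtain ⟨A, hA⟩ : ∃ A : Set K, A = {c | c ≤ b ∧ Inac (Set.Iio c)} := ⟨_, rfl⟩
  have hAm : ∀ c, c ∈ A ↔ c ≤ b ∧ Inac (Set.Iio c) := fun c => by rw [hA]; exact Iff.rfl
  by_cases hgr : ∃ c ∈ A, ∀ d ∈ A, d ≤ c
  · -- a greatest active stage
    obtain ⟨c, hcA, hmax⟩ := hgr
    obtain ⟨hcb, hci⟩ := (hAm c).mp hcA
    obtain ⟨r', hr', D, t, hDt⟩ := sb_ext r hci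
    have hV : Val c D := (r'.ok.2 c D t hDt).1
    obtain ⟨l, hl, n, hn⟩ := (val_iff.mp hV).siz
    refine ⟨r', hr', n, ?_⟩
    have hex : ∀ w : {w : RR K // Bl (sx b) w ∧ w ≤ rr (sx b) r'}, ∃ t', w.1.f.1 c = some (D, t') := by
      intro w
      have h1 : (rr (sx b) r').f.1 c = some (D, t) := by
        rw [rr_f, rs_lt (lt_sx_iff.mpr hcb)]
        exact hDt
      obtain ⟨t', h2, -⟩ := w.2.2 c D t h1
      exact ⟨t', h2⟩
    choose φ hφ using hex
    have hinj : #{w : RR K // Bl (sx b) w ∧ w ≤ rr (sx b) r'} ≤ #(Cd c × und D) := by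
      refine mk_le_of_injective (f := fun w => ((⟨rs c w.1.f, rs_mem w.1.ok⟩ : Cd c),
        (⟨φ w, (w.1.ok.2 c D (φ w) (hφ w)).2⟩ : und D))) ?_
      intro w w' h
      have h1 : rs c w.1.f = rs c w'.1.f := congrArg Subtype.val (congrArg Prod.fst h)
      have h2 : φ w = φ w' := congrArg Subtype.val (congrArg Prod.snd h)
      refine Subtype.ext (RR.ext (Fn.ext (fun d => ?_)))
      rcases lt_trichotomy d c with hd | rfl | hd
      · have h3 : (rs c w.1.f).1 d = (rs c w'.1.f).1 d := by rw [h1]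
        rwa [rs_lt hd, rs_lt hd] at h3
      · rw [hφ w, hφ w', h2]
      · have h3 : ∀ v : {w : RR K // Bl (sx b) w ∧ w ≤ rr (sx b) r'}, v.1.f.1 d = none := by
          intro v
          by_contra hne
          exact absurd (hmax d ((hAm d).mpr (sb_act v.2.1 hne))) (not_le.mpr hd)
        rw [h3 w, h3 w']
    refine hinj.trans ?_
    rw [mk_prod]
    simp only [lift_id]
    refine mul_le_pl hδ ((card_Cd_le c hci).trans ((hIio c hcb).trans (le_pl _ _))) ?_
    rw [hl]
    exact hn.trans (pl_le_pl (hIio c hcb) n)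
  · -- no greatest active stage
    push Not at hgr
    refine ⟨r, le_rfl, 1, ?_⟩
    have hX : ∀ c : A, #(Option (Xv c.1)) ≤ max ℵ₀ #(Set.Iio b) := by
      intro c
      obtain ⟨c', hc', hlt⟩ := hgr c.1 c.2
      obtain ⟨hcb', hci'⟩ := (hAm c').mp hc'
      have hθ := inac_card hci'
      have h1 : #(Set.Iio c.1) < #(Set.Iio c') := iio_lt_iio hci' hlt
      have h2 : #(Xv c.1) < #(Set.Iio c') := card_Xv_lt hθ h1 (card_Cd_lt' hθ c.1 h1)
      rw [mk_option]
      exact (add_lt_of_lt hθ.aleph0_lt.le h2 (one_lt_aleph0.trans hθ.aleph0_lt)).le.trans (hIio c' hcb')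
    have hAc : #A ≤ max ℵ₀ #(Set.Iio b) := by
      have h1 : A ⊆ insert b (Set.Iio b) := by
        intro c hc
        rcases ((hAm c).mp hc).1.lt_or_eq with h | h
        · exact Or.inr h
        · exact Or.inl h
      refine (mk_le_mk_of_subset h1).trans (mk_insert_le.trans ?_)
      exact add_le_of_le hδ (le_max_right _ _) (one_lt_aleph0.le.trans hδ)
    have hex : ∀ (w : {w : RR K // Bl (sx b) w ∧ w ≤ rr (sx b) r}) (c : A),
        ∃ o : Option (Xv c.1), Option.map Subtype.val o = w.1.f.1 c.1 := fun w c => sb_opt w.1.ok c.1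
    choose φ hφ using hex
    have hinj : #{w : RR K // Bl (sx b) w ∧ w ≤ rr (sx b) r} ≤ #(∀ c : A, Option (Xv c.1)) := by
      refine mk_le_of_injective (f := fun w => φ w) ?_
      intro w w' h
      refine Subtype.ext (RR.ext (Fn.ext (fun d => ?_)))
      by_cases hd : d ∈ A
      · have h1 := hφ w ⟨d, hd⟩
        have h2 := hφ w' ⟨d, hd⟩
        have h3 : φ w ⟨d, hd⟩ = φ w' ⟨d, hd⟩ := congrFun h _
        rw [h3, h2] at h1
        exact h1.symm
      · have h3 : ∀ v : {w : RR K // Bl (sx b) w ∧ w ≤ rr (sx b) r}, v.1.f.1 d = none := by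
          intro v
          by_contra hne
          exact hd ((hAm d).mpr (sb_act v.2.1 hne))
        rw [h3 w, h3 w']
    refine hinj.trans ?_
    rw [mk_pi]
    refine (prod_le_prod _ (fun _ => max ℵ₀ #(Set.Iio b)) hX).trans ?_
    rw [prod_const']
    exact pow_le_pl hg hδ (n := 0) (le_pl _ _) hAc

end Pool.Agent.SplK
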