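import Pool.Agent.SplK.Dl
import Pool.Agent.SplK.Sb
import Pool.Agent.SplK.Bf

set_option autoImplicit false
set_option linter.all false

/-!
# Module Pw (few names of bounded subsets of K) difficulty 3

Put a := sx b, δ := max ℵ₀ #(Iio b). `card_base` for p.r: r' ≤ p.r and n with `#B ≤ pl δ n`, B := {w : RR K // Bl a w ∧ w ≤ rr a r'}. q := ⟨r', p.t⟩ ≤ p (P.refl). m := n + 1. The type (pl δ (n+1)).ord.ToType has cardinality pl δ (n+1) ≥
`#(Iio b → Set B)` = 2 ^ (#B * #(Iio b)) ≤ 2 ^ (pl δ n) = pl δ (n+1) (`two_pow_pl`, `mul_le_pl`), so there is a surjection σ from it onto Iio b → Set B (nonempty type). Define z i α := {E : Star P | ∃ h : α < b, ∃ w : B, w ∈ σ i ⟨α, h⟩ ∧ E.r ≤ w.1}.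
Given X and q' ≤ q. For α : Iio b let E α := {z | FoQ (X α) z ∨ IncQ (X α) z} (FoQ: predense below; IncQ: incompatible with all members): downward closed; dense (if not FoQ (X α) z some z' ≤ z satisfies IncQ (X α) z'). μ := max #(Cd a) δ': choose μ := max (max #(Cd a) δ) (pl δ n): μ < #K, Big a μ as
in module Rg (for c ≥ a active: `#(Cd a) < #(Iio c)`, `pl δ n < #(Iio c)` by `pl_lt`). `decide_lemma` with the base condition r0 := q'.r, m := (q'.r, q'.t): m' with q'' := tw P a q'.r m' ≤ q' and for all α < b and w ∈ B' := {w | Bl a w ∧ w ≤ rr a q'.r} (⊆ B as q'.r ≤ r') there is w' ≤ w, Bl a w', tw P a w' m' ∈ E α.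
Let Y α := {w : B | w.1 ≤ rr a q'.r ∧ FoQ (X α) (tw P a w.1 m')} and i with σ i = Y. Claim: for α < b, E ≤ q'': FoQ (X α) E ↔ FoQ (z i α) E.
 Every E0 ≤ q'': w := rr a E0.r ∈ B', E0 ≤ tw P a w m' (`tw_split`); take w' ≤ w with tw P a w' m' ∈ E α and E1 := tw P a w' (E0.r, E0.t) ≤ E0, E1 ≤ tw P a w' m'.
 (→) given E' ≤ E; E0 := E', E1 as above; FoQ (X α) E1 (monotone), so not IncQ (X α) (tw P a w' m'); so FoQ (X α) (tw P a w' m'), w' ∈ Y α and E1.r ≤ w' , so E1 ∈ z i α. (BelQ with C = E1 itself.)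
 (←) given E' ≤ E there is E0 ≤ E' below a member of z i α: E0.r ≤ w for some w ∈ Y α. Then rr a E0.r ≤ w (Bl a w: `leF_rs`, `cd_rs`), E0 ≤ q'' so E0 ≤ tw P a (rr a E0.r) m' ≤ tw P a w m' (`tw_base`), FoQ (X α) (tw P a w m'), so FoQ (X α) E0: there is E'' ≤ E0 with BelQ (X α) E''.
-/

namespace Pool.Agent.SplK

open Cardinal

variable {K : Type} [LinearOrder K] [Stp K] {T : Type}

theorem pw_fo_mono {Q : Type} [Preorder Q] {S : Set Q} {E E' : Q} (h : FoQ S E) (hE : E' ≤ E) : FoQ S E' :=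
  fun F hF => h F (hF.trans hE)

theorem pw_inc_mono {Q : Type} [Preorder Q] {S : Set Q} {E E' : Q} (h : IncQ S E) (hE : E' ≤ E) : IncQ S E' :=
  fun F hF => h F (hF.trans hE)

theorem pw_bl {a : K} {w : RR K} (h : Bl a w) : rr a w = w := RR.ext (cd_rs h)

theorem pw_sx_lt {b c : K} (hc : sx b ≤ c) (h : Inac (Set.Iio c)) : sx b < c := by
  have hbc : b < c := sx_le_iff.mp hc
  obtain ⟨d, hd⟩ := h.reg {⟨b, hbc⟩} (by
    rw [mk_singleton]
    exact one_lt_aleph0.trans h.unc)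
  have h1 : b < d.1 := hd _ rfl
  exact (sx_le_iff.mpr h1).trans_lt d.2

theorem pw_big (b : K) (n : ℕ) {θ : Cardinal.{0}} (hθ : θ.IsInaccessible) (h : #(Set.Iio b) < θ)
    (hC : #(Cd (sx b)) < θ) : max (max #(Cd (sx b)) (max ℵ₀ #(Set.Iio b))) (pl (max ℵ₀ #(Set.Iio b)) n) < θ := by
  have h1 : max ℵ₀ #(Set.Iio b) < θ := max_lt hθ.aleph0_lt h
  exact max_lt (max_lt hC h1) (pl_lt h1 (fun x hx => hθ.isStrongLimit.two_power_lt hx) n)

theorem pw_surj (hg : GCH0) (b : K) (n : ℕ) (B : Type) (hB : #B ≤ pl (max ℵ₀ #(Set.Iio b)) n) :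
    ∃ σ : (pl (max ℵ₀ #(Set.Iio b)) (n + 1)).ord.ToType → (Set.Iio b → Set B), Function.Surjective σ := by
  have h1 : #(Set.Iio b → Set B) ≤ #((pl (max ℵ₀ #(Set.Iio b)) (n + 1)).ord.ToType) := by
    rw [mk_ord_toType, ← two_pow_pl hg (le_max_left _ _), ← power_def, mk_set, ← power_mul]
    refine power_le_power_left two_ne_zero (mul_le_pl (le_max_left _ _) hB ?_)
    exact (le_max_right _ _).trans (le_pl _ _)
  obtain ⟨e⟩ := Cardinal.le_def _ _ |>.mp h1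
  exact ⟨Function.invFun e, Function.invFun_surjective e.injective⟩

theorem star_pw (hg : GCH0) (P : RPos (RR K) T) (hP : P.Closed #K) (b : K) (p : Star P) :
    ∃ q ≤ p, ∃ m : ℕ, ∃ z : (pl (max ℵ₀ #(Set.Iio b)) m).ord.ToType → K → Set (Star P), ∀ X : K → Set (Star P),
      ∀ q' ≤ q, ∃ q'' ≤ q', ∃ i, ∀ a < b, ∀ E ≤ q'', (FoQ (X a) E ↔ FoQ (z i a) E) := by
  classical
  obtain ⟨r', hr', n, hn⟩ := card_base hg b p.r
  obtain ⟨σ, hσ⟩ := pw_surj hg b n {w : RR K // Bl (sx b) w ∧ w ≤ rr (sx b) r'} hn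
  refine ⟨⟨r', p.t⟩, ⟨hr', P.refl _ _⟩, n + 1, fun i α => {E : Star P | ∃ h : α < b,
    ∃ w : {w : RR K // Bl (sx b) w ∧ w ≤ rr (sx b) r'}, w ∈ σ i ⟨α, h⟩ ∧ E.r ≤ w.1}, fun X q' hq' => ?_⟩
  have hCK : max (max #(Cd (sx b)) (max ℵ₀ #(Set.Iio b))) (pl (max ℵ₀ #(Set.Iio b)) n) < #K :=
    pw_big b n (inac_card Stp.inac) (Stp.inac.seg b) (card_Cd_lt _)
  have hbig : Big (sx b) (max (max #(Cd (sx b)) (max ℵ₀ #(Set.Iio b))) (pl (max ℵ₀ #(Set.Iio b)) n)) := by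
    intro c hc hi
    have h1 := pw_sx_lt hc hi
    exact pw_big b n (inac_card hi) (iio_lt_iio hi (sx_le_iff.mp hc))
      (card_Cd_lt' (inac_card hi) _ (iio_lt_iio hi h1))
  have hB : #{w : RR K // Bl (sx b) w ∧ w ≤ rr (sx b) q'.r} ≤
      max (max #(Cd (sx b)) (max ℵ₀ #(Set.Iio b))) (pl (max ℵ₀ #(Set.Iio b)) n) := by
    refine le_trans ?_ ((le_max_left _ _).trans (le_max_left _ _))
    refine mk_le_of_injective (f := fun w => (⟨w.1.f, w.2.1⟩ : Cd (sx b))) ?_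
    intro w w' h
    apply Subtype.ext
    apply RR.ext
    exact congrArg Subtype.val h
  obtain ⟨m', hm1, hm2⟩ := decide_lemma P hP (sx b) q'.r _
    ((le_max_left _ _).trans ((le_max_right _ _).trans (le_max_left _ _))) hbig hCK hB (Set.Iio b)
    ((le_max_right _ _).trans ((le_max_right _ _).trans (le_max_left _ _)))
    (fun α => {z | FoQ (X α.1) z ∨ IncQ (X α.1) z}) (fun α z => by
      by_cases h : FoQ (X α.1) z
      · exact ⟨z, le_rfl, Or.inl h⟩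
      · unfold FoQ at h
        push Not at h
        obtain ⟨z', hz', h1⟩ := h
        exact ⟨z', hz', Or.inr h1⟩)
    (fun α z hz z' hz' => hz.elim (fun h => Or.inl (pw_fo_mono h hz')) (fun h => Or.inr (pw_inc_mono h hz')))
    (q'.r, q'.t)
  have e0 : tw P (sx b) q'.r (q'.r, q'.t) = q' := by
    obtain ⟨r, t⟩ := q'
    have e : cr (sx b) r r = r := RR.ext (ct_self _ _)
    unfold tw
    dsimp only
    rw [e]
  rw [e0] at hm1
  obtain ⟨i, hi⟩ := hσ (fun α => {w | w.1 ≤ rr (sx b) q'.r ∧ FoQ (X α.1) (tw P (sx b) w.1 m')})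
  refine ⟨tw P (sx b) q'.r m', hm1, i, fun α hα E hE => ?_⟩
  have hq'r : rr (sx b) q'.r ≤ rr (sx b) r' := leF_rs hq'.1
  have key : ∀ E0 ≤ tw P (sx b) q'.r m', ∃ w', Bl (sx b) w' ∧ w' ≤ rr (sx b) q'.r ∧
      tw P (sx b) w' m' ∈ {z | FoQ (X α) z ∨ IncQ (X α) z} ∧ ∃ E1 ≤ E0, E1 ≤ tw P (sx b) w' m' ∧ E1.r ≤ w' := by
    intro E0 hE0
    obtain ⟨h1, h2, h3, h4⟩ := tw_split P hE0
    obtain ⟨w', h5, h6, h7⟩ := hm2 ⟨α, hα⟩ (rr (sx b) E0.r) h1 h2
    have h8 : rr (sx b) w' ≤ rr (sx b) (rr (sx b) E0.r) := by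
      rw [pw_bl h5, pw_bl h1]
      exact h6
    refine ⟨w', h5, h6.trans h2, h7, tw P (sx b) w' (E0.r, E0.t), ?_, ?_, ?_⟩
    · exact (tw_base P h8).trans (le_of_eq h3.symm)
    · exact tw_mono P ((le_of_eq h3.symm).trans h4) h8
    · have h9 := leF_rs_self (sx b) (ok_ct (a := sx b) w'.ok E0.r.ok)
      rw [rs_ct le_rfl, cd_rs h5] at h9
      exact h9
  have hz : ∀ w, w ∈ σ i ⟨α, hα⟩ ↔ (w.1 ≤ rr (sx b) q'.r ∧ FoQ (X α) (tw P (sx b) w.1 m')) := by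
    intro w
    rw [hi]
    rfl
  constructor
  · intro hF E' hE'
    obtain ⟨w', h1, h2, h3, E1, h4, h5, h6⟩ := key E' (hE'.trans hE)
    refine ⟨E1, h4, E1, ⟨hα, ⟨w', h1, h2.trans hq'r⟩, ?_, h6⟩, le_rfl⟩
    rw [hz]
    refine ⟨h2, ?_⟩
    rcases h3 with h3 | h3
    · exact h3
    · obtain ⟨E'', h7, h8⟩ := hF E1 (h4.trans hE')
      exact absurd h8 (h3 E'' (h7.trans h5))
  · intro hF E' hE'
    obtain ⟨E0, h1, C, ⟨_, w, hw, h2⟩, h3⟩ := hF E' hE'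
    rw [hz] at hw
    have h4 : E0 ≤ tw P (sx b) q'.r m' := h1.trans (hE'.trans hE)
    obtain ⟨h5, h6, h7, h8⟩ := tw_split P h4
    have h9 : E0.r ≤ w.1 := le_trans h3.1 h2
    have h10 : rr (sx b) (rr (sx b) E0.r) ≤ rr (sx b) w.1 := by
      rw [pw_bl h5]
      exact leF_rs h9
    have h11 : FoQ (X α) E0 := pw_fo_mono hw.2 (h8.trans (tw_base P h10))
    obtain ⟨E'', h12, h13⟩ := h11 E0 le_rfl
    exact ⟨E'', h12.trans h1, h13⟩

end Pool.Agent.SplK
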