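import Pool.Agent.SplK.Dl
import Pool.Agent.SplK.Sz
import Pool.Agent.SplK.Bf

set_option autoImplicit false
set_option linter.all false

/-!
# Module Rg (K stays regular) difficulty 2

`BelQ S E`: E is below a member of S (SplK.Bf). Put a := sx b, B := {w | Bl a w ∧ w ≤ rr a p.r}, μ := max ℵ₀ (max #(Cd a) #(Iio b)). Then μ < #K (`card_Cd_lt`, `Stp.inac.seg`, unc), #B ≤ #(Cd a) ≤ μ and Big a μ: for c ≥ a active, `#(Iio a) < #(Iio c)`:
b < c and Inac (Iio c) gives b' with b < b' < c (small sets are bounded), so a = sx b ≤ b' < c, `iio_lt_iio`; and `#(Cd a) < #(Iio c)` by `card_Cd_lt'` with θ = #(Iio c) (`inac_card`).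
For α : Iio b let E α := {z | (∃ d, BelQ (f α d) z) ∨ ∀ z' ≤ z, ∀ d, ¬ BelQ (f α d) z'}: dense and downward closed. `decide_lemma` with r0 = p.r, m = (p.r, p.t): m' with tw P a p.r m' ≤ tw P a p.r (p.r, p.t) = p (ct_self) and for all α < b, w ∈ B there is w' ≤ w,
Bl a w', tw P a w' m' ∈ E α. q := tw P a p.r m'. For α < b and w' ∈ B such that some d has BelQ (f α d) (tw P a w' m') choose such a d(α, w'). The set of the d(α, w') has size ≤ μ * μ < #K, so it is
bounded by some c (`Stp.inac.reg`). Let α < b, d, E ≤ q, BelQ (f α d) E. `tw_split` (E ≤ tw P a p.r m'): w := rr a E.r ∈ B, E = tw P a w (E.r, E.t), E ≤ tw P a w m'. Take w' ≤ w with z := tw P a w' m' ∈ E α, E' := tw P a w' (E.r, E.t): E' ≤ E (`tw_base`), E' ≤ z (`tw_mono`).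
As E' ≤ z and BelQ (f α d) E' the second alternative for z fails, so BelQ (f α (d(α, w'))) z and then for E'.
-/

namespace Pool.Agent.SplK

open Cardinal

variable {K : Type} [LinearOrder K] [Stp K] {T : Type}

theorem rg_belQ_mono {Q : Type} [Preorder Q] {S : Set Q} {E E' : Q} (h : BelQ S E) (h' : E' ≤ E) : BelQ S E' := by
  obtain ⟨C, hC, h1⟩ := h
  exact ⟨C, hC, h'.trans h1⟩

theorem star_reg (P : RPos (RR K) T) (hP : P.Closed #K) (b : K) (f : K → K → Set (Star P)) (p : Star P) :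
    ∃ q ≤ p, ∃ c : K, ∀ a < b, ∀ d, ∀ E ≤ q, BelQ (f a d) E → ∃ E' ≤ E, ∃ d' < c, BelQ (f a d') E' := by
  classical
  have hi := Stp.inac (K := K)
  set a : K := sx b with ha
  set B : Type := {w : RR K // Bl a w ∧ w ≤ rr a p.r} with hBdef
  set μ : Cardinal.{0} := max ℵ₀ (max #(Cd a) #(Set.Iio b)) with hμdef
  have h0 : ℵ₀ ≤ μ := le_max_left _ _
  have h1 : #(Cd a) ≤ μ := (le_max_left _ _).trans (le_max_right _ _)
  have h2 : #(Set.Iio b) ≤ μ := (le_max_right _ _).trans (le_max_right _ _)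
  have hμK : μ < #K := max_lt hi.unc (max_lt (card_Cd_lt a) (hi.seg b))
  have hB : #B ≤ μ := by
    refine le_trans ?_ h1
    refine Cardinal.mk_le_of_injective (f := fun w : B => (⟨w.1.f, w.2.1⟩ : Cd a)) ?_
    intro w w' hww
    have : w.1.f = w'.1.f := congrArg Subtype.val hww
    exact Subtype.ext (RR.ext this)
  have hBig : Big a μ := by
    intro c hac hc
    have hbc : b < c := sx_le_iff.mp hac
    obtain ⟨b', hb'⟩ := hc.reg {⟨b, hbc⟩} (by
      rw [mk_singleton]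
      exact one_lt_aleph0.trans hc.unc)
    have hbb' : b < b'.1 := hb' _ rfl
    have hac' : a < c := (sx_le_iff.mpr hbb').trans_lt b'.2
    have h3 : #(Set.Iio a) < #(Set.Iio c) := iio_lt_iio hc hac'
    exact max_lt hc.unc (max_lt (card_Cd_lt' (inac_card hc) a h3) (iio_lt_iio hc hbc))
  obtain ⟨m', hm1, hm2⟩ := decide_lemma P hP a p.r μ h0 hBig hμK hB (Set.Iio b) h2
    (fun α => {z | (∃ d, BelQ (f α.1 d) z) ∨ ∀ z' ≤ z, ∀ d, ¬ BelQ (f α.1 d) z'})
    (by
      intro j z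
      by_cases hz : ∃ z' ≤ z, ∃ d, BelQ (f j.1 d) z'
      · obtain ⟨z', hz', hd⟩ := hz
        exact ⟨z', hz', Or.inl hd⟩
      · push Not at hz
        exact ⟨z, le_rfl, Or.inr hz⟩)
    (by
      intro j z hz z' hz'
      rcases hz with ⟨d, hd⟩ | hz
      · exact Or.inl ⟨d, rg_belQ_mono hd hz'⟩
      · exact Or.inr (fun z'' hz'' => hz z'' (hz''.trans hz')))
    (p.r, p.t)
  have hp : tw P a p.r (p.r, p.t) = p := by
    have : cr a p.r p.r = p.r := RR.ext (ct_self _ _)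
    show (⟨cr a p.r p.r, p.t⟩ : Star P) = p
    rw [this]
  rw [hp] at hm1
  let dd : Set.Iio b × B → K := fun x =>
    if h : ∃ d, BelQ (f x.1.1 d) (tw P a x.2.1 m') then h.choose else Stp.bt
  obtain ⟨c, hc⟩ := hi.reg (Set.range dd) (by
    refine (mk_range_le (f := dd)).trans_lt ?_
    refine lt_of_le_of_lt ?_ hμK
    rw [mk_prod, lift_id, lift_id]
    exact (mul_le_mul' h2 hB).trans (mul_eq_self h0).le)
  refine ⟨tw P a p.r m', hm1, c, ?_⟩
  intro α hα d E hE hBel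
  obtain ⟨s1, s2, s3, s4⟩ := tw_split P hE
  obtain ⟨w', w1, w2, w3⟩ := hm2 ⟨α, hα⟩ (rr a E.r) s1 s2
  have hrr : rr a w' ≤ rr a (rr a E.r) := leF_rs w2
  have hE1 : tw P a w' (E.r, E.t) ≤ E := by
    have := tw_base P (a := a) (s := rr a E.r) (w := w') (m := (E.r, E.t)) hrr
    exact this.trans (le_of_eq s3.symm)
  have hE2 : tw P a w' (E.r, E.t) ≤ tw P a w' m' := by
    refine tw_mono P (s := rr a E.r) ?_ hrr
    exact (le_of_eq s3.symm).trans s4
  have hBel' : BelQ (f α d) (tw P a w' (E.r, E.t)) := rg_belQ_mono hBel hE1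
  refine ⟨tw P a w' (E.r, E.t), hE1, dd (⟨α, hα⟩, ⟨w', w1, w2.trans s2⟩), hc _ ⟨_, rfl⟩, ?_⟩
  have hex : ∃ d, BelQ (f α d) (tw P a w' m') := by
    rcases w3 with h | h
    · exact h
    · exact absurd hBel' (h _ hE2 d)
  have hdd : dd (⟨α, hα⟩, ⟨w', w1, w2.trans s2⟩) = hex.choose := by
    simp only [dd]
    rw [dif_pos hex]
  rw [hdd]
  exact rg_belQ_mono hex.choose_spec hE2

end Pool.Agent.SplK
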