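import Pool.Agent.SplK.PrepDefs
import Pool.Agent.SplK.Kc
import Pool.Agent.SplK.Cc
import Pool.Agent.SplK.MuB
import Pool.Agent.SplK.Rg
import Pool.Agent.SplK.Pw

set_option autoImplicit false
set_option linter.all false

/-!
# The preparation: the final theorem of the block
-/

namespace Pool.Agent.SplK

open Cardinal

theorem prep (K : Type) [LinearOrder K] (h : Inac K) (hg : GCH0) (hsc : SC #K) :
    ∃ (R : Type) (_ : Preorder R) (_ : OrderTop R), Prep K R := by
  obtain ⟨hS⟩ := stp_of_inac K h
  letI := hS
  obtain ⟨W, hW⟩ := hsc 0 K (pl_zero _).symm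
  exact ⟨RR K, inferInstance, inferInstance,
    { card := card_RR_le
      cc := rr_cc hW
      meas := fun n T P hP hT => meas hg hsc n P hP hT
      reg := fun T P hP => star_reg P hP
      pw := fun T P hP => star_pw hg P hP }⟩

end Pool.Agent.SplK
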